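import Mathlib
import Pool.Agent.Lib.MP_a34d76_pr.Coupling

/-!
# Averaging a continuous function over the rotations about a coordinate axis (MP_a34d76_pr)
-/

set_option autoImplicit false

open MeasureTheory Matrix Topology

namespace Pool.Agent.Lib.MP_a34d76_pr.Rev

variable {d : ℕ}

/-- the orthogonal group of `ℝ^d` -/
abbrev OG (d : ℕ) := Matrix.orthogonalGroup (Fin d) ℝ

instance compactSpace_OG : CompactSpace (OG d) := by
  have h1 : IsCompact (Set.pi Set.univ fun _ : Fin d => Set.pi Set.univ fun _ : Fin d =>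
      Set.Icc (-1 : ℝ) 1) :=
    isCompact_univ_pi fun _ => isCompact_univ_pi fun _ => isCompact_Icc
  have h2 : IsClosed ((OG d : Submonoid (Matrix (Fin d) (Fin d) ℝ)) :
      Set (Matrix (Fin d) (Fin d) ℝ)) := isClosed_unitary
  have h3 : IsCompact ((OG d : Submonoid (Matrix (Fin d) (Fin d) ℝ)) :
      Set (Matrix (Fin d) (Fin d) ℝ)) := by
    refine h1.of_isClosed_subset h2 ?_
    intro U hU i _ k _
    have := entry_norm_bound_of_unitary (𝕜 := ℝ) hU i k
    rw [Real.norm_eq_abs, abs_le] at this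
    exact this
  exact isCompact_iff_compactSpace.1 h3

/-- rotations that fix the axis `j` -/
def Stab (j : Fin d) : Subgroup (OG d) where
  carrier := {U | (U : Matrix (Fin d) (Fin d) ℝ) *ᵥ (Pi.single j 1) = Pi.single j 1}
  mul_mem' := by
    intro U V hU hV
    simp only [Set.mem_ofPred_eq] at hU hV ⊢
    rw [Submonoid.coe_mul, ← Matrix.mulVec_mulVec, hV, hU]
  one_mem' := by
    simp only [Set.mem_ofPred_eq]
    rw [Submonoid.coe_one, Matrix.one_mulVec]
  inv_mem' := by
    intro U hU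
    simp only [Set.mem_ofPred_eq] at hU ⊢
    have h1 : ((U⁻¹ : OG d) : Matrix (Fin d) (Fin d) ℝ) * (U : Matrix (Fin d) (Fin d) ℝ) = 1 := by
      rw [← Submonoid.coe_mul, inv_mul_cancel, Submonoid.coe_one]
    conv_lhs => rw [← hU]
    rw [Matrix.mulVec_mulVec, h1, Matrix.one_mulVec]

theorem isClosed_stab (j : Fin d) : IsClosed (Stab j : Set (OG d)) := by
  have h1 : Continuous fun U : OG d =>
      (U : Matrix (Fin d) (Fin d) ℝ) *ᵥ (Pi.single j 1 : Fin d → ℝ) :=
    Continuous.matrix_mulVec continuous_subtype_val continuous_const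
  exact isClosed_eq h1 continuous_const

instance compactSpace_stab (j : Fin d) : CompactSpace (Stab j) :=
  isCompact_iff_compactSpace.1 (isClosed_stab j).isCompact

/-- the action of the inverse -/
def act (j : Fin d) (U : Stab j) (x : Fin d → ℝ) : Fin d → ℝ :=
  (((U⁻¹ : Stab j) : OG d) : Matrix (Fin d) (Fin d) ℝ) *ᵥ x

theorem act_mul (j : Fin d) (V U : Stab j) (x : Fin d → ℝ) :
    act j (V * U) x = act j U (act j V x) := by
  unfold act
  rw [_root_.mul_inv_rev, Subgroup.coe_mul, Submonoid.coe_mul, ← Matrix.mulVec_mulVec]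

theorem continuous_act (j : Fin d) : Continuous fun p : (Fin d → ℝ) × Stab j => act j p.2 p.1 := by
  unfold act
  refine Continuous.matrix_mulVec ?_ continuous_fst
  exact continuous_subtype_val.comp (continuous_subtype_val.comp (continuous_inv.comp
    continuous_snd))

theorem orth_sum_sq (U : OG d) (x : Fin d → ℝ) :
    ∑ i, ((U : Matrix (Fin d) (Fin d) ℝ) *ᵥ x) i ^ 2 = ∑ i, x i ^ 2 := by
  have h1 : (U : Matrix (Fin d) (Fin d) ℝ)ᵀ * (U : Matrix (Fin d) (Fin d) ℝ) = 1 := by
    have := (Matrix.mem_orthogonalGroup_iff' (Fin d) ℝ).1 U.2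
    exact this
  have h2 : ∀ v : Fin d → ℝ, ∑ i, v i ^ 2 = v ⬝ᵥ v := by
    intro v
    simp [dotProduct, sq]
  rw [h2, h2, Matrix.dotProduct_mulVec, Matrix.vecMul_mulVec, h1, Matrix.vecMul_one]

theorem stab_apply (j : Fin d) (U : Stab j) (x : Fin d → ℝ) :
    (((U : OG d) : Matrix (Fin d) (Fin d) ℝ) *ᵥ x) j = x j := by
  have h1 : ((U : OG d) : Matrix (Fin d) (Fin d) ℝ)ᵀ *
      ((U : OG d) : Matrix (Fin d) (Fin d) ℝ) = 1 :=
    (Matrix.mem_orthogonalGroup_iff' (Fin d) ℝ).1 (U : OG d).2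
  have hU : ((U : OG d) : Matrix (Fin d) (Fin d) ℝ) *ᵥ (Pi.single j 1) = Pi.single j 1 := U.2
  have h2 : ∀ v : Fin d → ℝ, v j = (Pi.single j 1 : Fin d → ℝ) ⬝ᵥ v := by
    intro v
    simp
  rw [h2 (((U : OG d) : Matrix (Fin d) (Fin d) ℝ) *ᵥ x), h2 x]
  conv_lhs => rw [← hU]
  rw [Matrix.dotProduct_mulVec, Matrix.vecMul_mulVec, h1, Matrix.vecMul_one]

theorem act_sum_sq (j : Fin d) (U : Stab j) (x : Fin d → ℝ) :
    ∑ i, act j U x i ^ 2 = ∑ i, x i ^ 2 := orth_sum_sq _ x

theorem act_axis (j : Fin d) (U : Stab j) (x : Fin d → ℝ) : act j U x j = x j :=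
  stab_apply j U⁻¹ x

/-- transitivity (Householder reflections) -/
theorem exists_act (j : Fin d) (x y : Fin d → ℝ) (hj : x j = y j)
    (hs : ∑ i, x i ^ 2 = ∑ i, y i ^ 2) : ∃ V : Stab j, act j V x = y := by
  rcases eq_or_ne x y with rfl | hne
  · refine ⟨1, ?_⟩
    unfold act
    simp
  set w : Fin d → ℝ := x - y with hw
  have hw0 : w ⬝ᵥ w ≠ 0 := by
    intro h
    have := dotProduct_self_eq_zero.1 h
    exact hne (sub_eq_zero.1 this)
  have hxx : x ⬝ᵥ x = y ⬝ᵥ y := by
    simpa [dotProduct, sq] using hs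
  clear_value w
  set H : Matrix (Fin d) (Fin d) ℝ := 1 - (2 / (w ⬝ᵥ w)) • Matrix.vecMulVec w w with hH
  have hHv : ∀ v, H *ᵥ v = v - (2 * (w ⬝ᵥ v) / (w ⬝ᵥ w)) • w := by
    intro v
    rw [hH, Matrix.sub_mulVec, Matrix.one_mulVec, Matrix.smul_mulVec, Matrix.vecMulVec_mulVec]
    ext i
    simp only [Pi.sub_apply, Pi.smul_apply, smul_eq_mul, MulOpposite.smul_eq_mul_unop,
      MulOpposite.unop_op]
    ring
  have hHT : Hᵀ = H := by
    rw [hH, Matrix.transpose_sub, Matrix.transpose_one, Matrix.transpose_smul,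
      Matrix.transpose_vecMulVec]
  have hHH : H * H = 1 := by
    apply Matrix.toLin'.injective
    apply LinearMap.ext
    intro v
    rw [Matrix.toLin'_apply, Matrix.toLin'_apply, ← Matrix.mulVec_mulVec, Matrix.one_mulVec,
      hHv v, hHv]
    rw [dotProduct_sub, dotProduct_smul, smul_eq_mul]
    ext i
    simp only [Pi.sub_apply, Pi.smul_apply, smul_eq_mul]
    field_simp
    ring
  have hHO : H ∈ OG d := by
    rw [Matrix.mem_orthogonalGroup_iff]
    change H * Hᵀ = 1
    rw [hHT, hHH]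
  have hHj : H *ᵥ (Pi.single j 1) = Pi.single j 1 := by
    rw [hHv]
    have : w ⬝ᵥ (Pi.single j 1 : Fin d → ℝ) = 0 := by
      rw [dotProduct_single, mul_one, hw, Pi.sub_apply, hj, sub_self]
    rw [this]
    simp
  set V0 : OG d := ⟨H, hHO⟩ with hV0
  refine ⟨⟨V0, hHj⟩, ?_⟩
  have hinv : (V0⁻¹ : OG d) = V0 := by
    rw [inv_eq_iff_mul_eq_one]
    apply Subtype.ext
    exact hHH
  unfold act
  rw [Subgroup.coe_inv, hinv]
  change H *ᵥ x = y
  rw [hHv]
  have h1 : w ⬝ᵥ x = x ⬝ᵥ x - x ⬝ᵥ y := by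
    rw [hw, sub_dotProduct, dotProduct_comm y x]
  have h2 : w ⬝ᵥ w = 2 * (x ⬝ᵥ x - x ⬝ᵥ y) := by
    rw [hw, sub_dotProduct, dotProduct_sub, dotProduct_sub, ← hxx, dotProduct_comm y x]
    ring
  have h3 : 2 * (w ⬝ᵥ x) / (w ⬝ᵥ w) = 1 := by
    rw [div_eq_one_iff_eq hw0, h1, h2]
  rw [h3, one_smul, hw]
  abel

section haar

/-- Borel structure -/
local instance (j : Fin d) : MeasurableSpace (Stab j) := borel _
local instance (j : Fin d) : BorelSpace (Stab j) := ⟨rfl⟩

/-- the Haar probability measure -/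
noncomputable def hm (j : Fin d) : @Measure (Stab j) (borel _) :=
  Measure.haarMeasure (⊤ : TopologicalSpace.PositiveCompacts (Stab j))

instance isProb_hm (j : Fin d) : @IsProbabilityMeasure (Stab j) (borel _) (hm j) := by
  constructor
  have h := Measure.haarMeasure_self (K₀ := (⊤ : TopologicalSpace.PositiveCompacts (Stab j)))
  simpa [hm] using h

instance invariant_hm (j : Fin d) : @Measure.IsMulLeftInvariant (Stab j) (borel _) _ (hm j) := by
  unfold hm
  infer_instance

/-- the average of `g` over the rotations about the axis `j` -/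
noncomputable def avg (j : Fin d) (g : (Fin d → ℝ) → ℝ) (x : Fin d → ℝ) : ℝ :=
  ∫ U, g (act j U x) ∂(hm j)

theorem continuous_avg (j : Fin d) {g : (Fin d → ℝ) → ℝ} (hg : Continuous g) :
    Continuous (avg j g) := by
  have h := continuous_parametric_integral_of_continuous (μ := hm j)
    (f := fun (x : Fin d → ℝ) (U : Stab j) => g (act j U x))
    (hg.comp (continuous_act j)) (s := Set.univ) isCompact_univ
  simp only [Measure.restrict_univ] at h
  exact h

theorem integrable_act (j : Fin d) {g : (Fin d → ℝ) → ℝ} (hg : Continuous g) (x : Fin d → ℝ) :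
    Integrable (fun U : Stab j => g (act j U x)) (hm j) := by
  have hc : Continuous fun U : Stab j => g (act j U x) :=
    hg.comp ((continuous_act j).comp (continuous_const.prodMk continuous_id))
  exact hc.integrable_of_hasCompactSupport (HasCompactSupport.of_compactSpace _)

theorem avg_act (j : Fin d) (g : (Fin d → ℝ) → ℝ) (V : Stab j) (x : Fin d → ℝ) :
    avg j g (act j V x) = avg j g x := by
  unfold avg
  simp_rw [← act_mul]
  exact integral_mul_left_eq_self (μ := hm j) (fun U => g (act j U x)) V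

theorem avg_eq (j : Fin d) (g : (Fin d → ℝ) → ℝ) {x y : Fin d → ℝ} (hj : x j = y j)
    (hs : ∑ i, x i ^ 2 = ∑ i, y i ^ 2) : avg j g x = avg j g y := by
  obtain ⟨V, rfl⟩ := exists_act j x y hj hs
  exact (avg_act j g V x).symm

/-- invariance under the rotations about the axis `j` -/
def Inv (j : Fin d) (K : Set (Fin d → ℝ)) : Prop :=
  ∀ x ∈ K, ∀ y : Fin d → ℝ, y j = x j → ∑ i, y i ^ 2 = ∑ i, x i ^ 2 → y ∈ K

theorem Inv.act_mem {j : Fin d} {K : Set (Fin d → ℝ)} (h : Inv j K) (U : Stab j) {x : Fin d → ℝ}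
    (hx : x ∈ K) : act j U x ∈ K :=
  h x hx _ (act_axis j U x) (act_sum_sq j U x)

theorem Inv.act_mem_iff {j : Fin d} {K : Set (Fin d → ℝ)} (h : Inv j K) (U : Stab j)
    {x : Fin d → ℝ} : act j U x ∈ K ↔ x ∈ K :=
  ⟨fun hx => h _ hx x (act_axis j U x).symm (act_sum_sq j U x).symm, fun hx => h.act_mem U hx⟩

theorem measurePreserving_act (j : Fin d) (U : Stab j) :
    MeasurePreserving (act j U) (volume : Measure (Fin d → ℝ)) volume := by
  set M : Matrix (Fin d) (Fin d) ℝ := (((U⁻¹ : Stab j) : OG d) : Matrix (Fin d) (Fin d) ℝ) with hM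
  have hMM : M * Mᵀ = 1 := (Matrix.mem_orthogonalGroup_iff (Fin d) ℝ).1 ((U⁻¹ : Stab j) : OG d).2
  have hdet : M.det * M.det = 1 := by
    have := congrArg Matrix.det hMM
    rwa [Matrix.det_mul, Matrix.det_transpose, Matrix.det_one] at this
  have hdet0 : M.det ≠ 0 := by
    intro h
    rw [h] at hdet
    simp at hdet
  have habs : |M.det| = 1 := by
    have h1 : |M.det| * |M.det| = 1 := by rw [← abs_mul, hdet, abs_one]
    nlinarith [abs_nonneg M.det]
  have h := Real.map_matrix_volume_pi_eq_smul_volume_pi hdet0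
  refine ⟨?_, ?_⟩
  · exact ((continuous_act j).comp (continuous_id.prodMk continuous_const)).measurable
  · rw [abs_inv, habs, inv_one, ENNReal.ofReal_one, one_smul] at h
    have e : act j U = ⇑(Matrix.toLin' M) := by
      ext x i
      rw [Matrix.toLin'_apply]
      rfl
    rw [e]
    exact h

theorem setIntegral_act (j : Fin d) (U : Stab j) {K : Set (Fin d → ℝ)} (hK : MeasurableSet K)
    (hinv : Inv j K) (g : (Fin d → ℝ) → ℝ) (hg : Continuous g) :
    ∫ x in K, g (act j U x) = ∫ x in K, g x := by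
  have hpre : act j U ⁻¹' K = K := by
    ext x
    exact hinv.act_mem_iff U
  have hmp := (measurePreserving_act j U).restrict_preimage hK
  rw [hpre] at hmp
  rw [← hmp.map_eq]
  rw [integral_map hmp.measurable.aemeasurable hg.aestronglyMeasurable, hmp.map_eq]

theorem setIntegral_avg (j : Fin d) {K : Set (Fin d → ℝ)} (hK : IsCompact K)
    (hinv : Inv j K) {g : (Fin d → ℝ) → ℝ} (hg : Continuous g) :
    ∫ x in K, avg j g x = ∫ x in K, g x := by
  unfold avg
  have hc : Continuous fun p : (Fin d → ℝ) × Stab j => g (act j p.2 p.1) :=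
    hg.comp (continuous_act j)
  have hfin : IsFiniteMeasure (volume.restrict K) :=
    ⟨by rw [Measure.restrict_apply_univ]; exact hK.measure_lt_top⟩
  rw [integral_integral_swap]
  · have : ∀ U : Stab j, ∫ x in K, g (act j U x) = ∫ x in K, g x := fun U =>
      setIntegral_act j U hK.measurableSet hinv g hg
    simp_rw [this]
    simp
  · obtain ⟨B, hB⟩ := (hK.prod (isCompact_univ (X := Stab j))).exists_bound_of_continuousOn
      hc.continuousOn
    refine Integrable.of_bound hc.aestronglyMeasurable B ?_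
    have hmem : ∀ᵐ x ∂(volume.restrict K), x ∈ K := ae_restrict_mem hK.measurableSet
    have := Measure.quasiMeasurePreserving_fst (μ := volume.restrict K) (ν := hm j)
    filter_upwards [this.ae hmem] with p hp
    exact hB p ⟨hp, Set.mem_univ _⟩

theorem avg_sum_nonneg (j : Fin d) {n : ℕ} {K : Set (Fin d → ℝ)} (hinv : Inv j K)
    {g : (Fin d → ℝ) → ℝ} (hg : Continuous g) (h : ∀ x ∈ Conf n K, 0 ≤ ∑ i, g (x i)) :
    ∀ x ∈ Conf n K, 0 ≤ ∑ i, avg j g (x i) := by
  intro x hx
  unfold avg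
  rw [← integral_finsetSum _ fun i _ => integrable_act j hg (x i)]
  refine integral_nonneg fun U => ?_
  refine h (fun i => act j U (x i)) ⟨fun i => hinv.act_mem U (hx.1 i), ?_⟩
  have h1 : ∑ i, act j U (x i) = act j U (∑ i, x i) := by
    unfold act
    rw [Matrix.mulVec_sum]
  rw [h1, hx.2]
  unfold act
  rw [Matrix.mulVec_zero]

end haar

/-- Averaging over the rotations about the axis `j`. -/
theorem exists_avg (j : Fin d) (g : C(Fin d → ℝ, ℝ)) {n : ℕ} {K : Set (Fin d → ℝ)}
    (hK : IsCompact K) (hinv : Inv j K) (h : ∀ x ∈ Conf n K, 0 ≤ ∑ i, g (x i)) :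
    ∃ gb : C(Fin d → ℝ, ℝ),
      (∀ x y : Fin d → ℝ, x j = y j → ∑ i, x i ^ 2 = ∑ i, y i ^ 2 → gb x = gb y) ∧
      ∫ x in K, gb x = ∫ x in K, g x ∧
      ∀ x ∈ Conf n K, 0 ≤ ∑ i, gb (x i) :=
  ⟨⟨avg j g, continuous_avg j g.continuous⟩, fun _ _ h1 h2 => avg_eq j g h1 h2,
    setIntegral_avg j hK hinv g.continuous, avg_sum_nonneg j hinv g.continuous h⟩

end Pool.Agent.Lib.MP_a34d76_pr.Rev
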