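import Mathlib

/-!
# Closed polygons with prescribed side lengths (MP_a34d76_pr)
-/

set_option autoImplicit false

namespace Pool.Agent.Lib.MP_a34d76_pr.Rev

/-- a triangle with sides `s`, `a`, `t` -/
theorem exists_triangle {s a t : ℝ} (hs : 0 ≤ s) (ha : 0 ≤ a) (ht : 0 ≤ t) (h1 : s ≤ a + t)
    (h2 : a ≤ s + t) (h3 : t ≤ s + a) : ∃ ζ : ℂ, ‖ζ‖ = t ∧ ‖(s : ℂ) - ζ‖ = a := by
  rcases hs.eq_or_lt with rfl | hs
  · refine ⟨(t : ℂ), ?_, ?_⟩
    · rw [Complex.norm_real, Real.norm_eq_abs, abs_of_nonneg ht]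
    · rw [Complex.ofReal_zero, zero_sub, norm_neg, Complex.norm_real, Real.norm_eq_abs,
        abs_of_nonneg ht]
      linarith
  · set p := (t ^ 2 + s ^ 2 - a ^ 2) / (2 * s) with hp
    have hps : 2 * s * p = t ^ 2 + s ^ 2 - a ^ 2 := by
      rw [hp]; field_simp
    have h4 : p ≤ t := by
      have : 2 * s * p ≤ 2 * s * t := by
        rw [hps]
        nlinarith
      exact le_of_mul_le_mul_left this (by positivity)
    have h5 : -t ≤ p := by
      have : 2 * s * (-t) ≤ 2 * s * p := by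
        rw [hps]
        nlinarith
      exact le_of_mul_le_mul_left this (by positivity)
    have h6 : 0 ≤ t ^ 2 - p ^ 2 := by nlinarith
    have h7 := Real.sq_sqrt h6
    set q := Real.sqrt (t ^ 2 - p ^ 2) with hq
    refine ⟨⟨p, q⟩, ?_, ?_⟩
    · rw [Complex.norm_def, Complex.normSq_mk, show p * p + q * q = t ^ 2 by nlinarith,
        Real.sqrt_sq ht]
    · rw [Complex.norm_def, Complex.normSq_apply]
      simp only [Complex.sub_re, Complex.ofReal_re, Complex.sub_im, Complex.ofReal_im]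
      rw [show (s - p) * (s - p) + (0 - q) * (0 - q) = a ^ 2 by nlinarith, Real.sqrt_sq ha]

theorem exists_polygon_aux (n : ℕ) : ∀ (r : Fin n → ℝ) (s : ℝ), (∀ i, 0 ≤ r i) → 0 ≤ s →
    s ≤ ∑ i, r i → (∀ i, 2 * r i ≤ ∑ j, r j + s) →
    ∃ z : Fin n → ℂ, (∀ i, ‖z i‖ = r i) ∧ ∑ i, z i = (s : ℂ) := by
  induction n with
  | zero =>
    intro r s _ hs hs2 _
    refine ⟨fun i => i.elim0, fun i => i.elim0, ?_⟩
    simp only [Finset.univ_eq_empty, Finset.sum_empty] at hs2 ⊢
    have : s = 0 := le_antisymm hs2 hs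
    rw [this, Complex.ofReal_zero]
  | succ n ih =>
    intro r s hr hs hs2 h
    set S := ∑ i : Fin n, r i.succ with hS
    have hS0 : 0 ≤ S := Finset.sum_nonneg fun i _ => hr _
    have hsum : ∑ i, r i = r 0 + S := Fin.sum_univ_succ r
    rw [hsum] at hs2
    have ha := hr 0
    have h0 := h 0
    rw [hsum] at h0
    have ht0 : 0 ≤ min (s + r 0) S := le_min (by linarith) hS0
    obtain ⟨z', hz', hzs'⟩ := ih (fun i => r i.succ) (min (s + r 0) S) (fun i => hr _) ht0
      (min_le_right _ _) (fun i => by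
        have h1 := h i.succ
        rw [hsum] at h1
        have h2 : r i.succ ≤ S :=
          Finset.single_le_sum (f := fun i : Fin n => r i.succ) (fun i _ => hr _)
            (Finset.mem_univ i)
        rw [← sub_le_iff_le_add']
        refine le_min ?_ ?_ <;> change 2 * r i.succ - S ≤ _ <;> linarith)
    obtain ⟨ζ, hζ1, hζ2⟩ := exists_triangle hs ha ht0 (by
        rw [← sub_le_iff_le_add']
        refine le_min ?_ ?_ <;> linarith) (by
        rw [← sub_le_iff_le_add']
        refine le_min ?_ ?_ <;> linarith) (min_le_left _ _)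
    set t := min (s + r 0) S with ht
    obtain ⟨u, hu, hut⟩ : ∃ u : ℂ, ‖u‖ = 1 ∧ u * (t : ℂ) = ζ := by
      rcases ht0.eq_or_lt with h0 | h0
      · refine ⟨1, norm_one, ?_⟩
        rw [← h0] at hζ1 ⊢
        rw [norm_eq_zero] at hζ1
        rw [hζ1]
        simp
      · have htc : (t : ℂ) ≠ 0 := by exact_mod_cast h0.ne'
        refine ⟨ζ / t, ?_, div_mul_cancel₀ _ htc⟩
        rw [norm_div, hζ1, Complex.norm_real, Real.norm_eq_abs, abs_of_pos h0, div_self h0.ne']
    refine ⟨Fin.cons ((s : ℂ) - ζ) fun i => u * z' i, ?_, ?_⟩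
    · intro i
      refine Fin.cases ?_ (fun i => ?_) i
      · rw [Fin.cons_zero]; exact hζ2
      · rw [Fin.cons_succ, norm_mul, hu, one_mul, hz']
    · rw [Fin.sum_univ_succ, Fin.cons_zero]
      simp only [Fin.cons_succ]
      rw [← Finset.mul_sum, hzs', hut]
      ring

/-- Closed polygons: lengths with `2 max ≤ sum` are the side lengths of a closed planar polygon. -/
theorem exists_polygon {n : ℕ} (r : Fin n → ℝ) (h0 : ∀ i, 0 ≤ r i)
    (h : ∀ i, 2 * r i ≤ ∑ j, r j) : ∃ z : Fin n → ℂ, (∀ i, ‖z i‖ = r i) ∧ ∑ i, z i = 0 := by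
  obtain ⟨z, hz, hs⟩ := exists_polygon_aux n r 0 h0 le_rfl
    (Finset.sum_nonneg fun i _ => h0 i) (fun i => by rw [add_zero]; exact h i)
  exact ⟨z, hz, by rw [hs, Complex.ofReal_zero]⟩

end Pool.Agent.Lib.MP_a34d76_pr.Rev
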