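import Mathlib
import Pool.Agent.Lib.MP_a34d76_pr.Rev.Avg
import Pool.Agent.Lib.MP_a34d76_pr.Rev.Polygon

/-!
# Bodies of revolution: reduction of the dual inequality to a planar statement (MP_a34d76_pr)
-/

set_option autoImplicit false

open MeasureTheory Set Topology

namespace Pool.Agent.Lib.MP_a34d76_pr.Rev

variable {m : ℕ}

/-- the distance to the axis `j` -/
noncomputable def rad (j : Fin (m + 1)) (x : Fin (m + 1) → ℝ) : ℝ :=
  √(∑ i : Fin m, x (j.succAbove i) ^ 2)

theorem rad_nonneg (j : Fin (m + 1)) (x : Fin (m + 1) → ℝ) : 0 ≤ rad j x := Real.sqrt_nonneg _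

theorem rad_sq (j : Fin (m + 1)) (x : Fin (m + 1) → ℝ) :
    rad j x ^ 2 = ∑ i : Fin m, x (j.succAbove i) ^ 2 :=
  Real.sq_sqrt (Finset.sum_nonneg fun _ _ => sq_nonneg _)

theorem sum_sq_eq (j : Fin (m + 1)) (x : Fin (m + 1) → ℝ) :
    ∑ i, x i ^ 2 = x j ^ 2 + rad j x ^ 2 := by
  rw [Fin.sum_univ_succAbove (fun i => x i ^ 2) j, rad_sq]

theorem continuous_rad (j : Fin (m + 1)) : Continuous (rad j) := by
  unfold rad
  fun_prop

/-- the constant of the polar integration formula -/
noncomputable def cst (m : ℕ) : ℝ :=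
  m * (volume : Measure (EuclideanSpace ℝ (Fin m))).real (Metric.ball 0 1)

theorem cst_pos (hm : 1 ≤ m) : 0 < cst m := by
  unfold cst
  have h1 : (0 : ℝ) < m := by exact_mod_cast hm
  refine mul_pos h1 ?_
  rw [Measure.real]
  exact ENNReal.toReal_pos (Metric.measure_ball_pos volume _ one_pos).ne' measure_ball_lt_top.ne

theorem integral_norm_pi (hm : 1 ≤ m) (h : ℝ → ℝ) :
    ∫ v : Fin m → ℝ, h (√(∑ i, v i ^ 2)) = cst m * ∫ r in Ioi (0 : ℝ), r ^ (m - 1) * h r := by
  have hne : Nonempty (Fin m) := ⟨⟨0, by omega⟩⟩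
  have hnt : Nontrivial (EuclideanSpace ℝ (Fin m)) := inferInstance
  have h1 := integral_fun_norm_addHaar (volume : Measure (EuclideanSpace ℝ (Fin m))) h
  have h2 := (PiLp.volume_preserving_ofLp (Fin m)).integral_comp
    (MeasurableEquiv.toLp 2 (Fin m → ℝ)).symm.measurableEmbedding
    (fun v : Fin m → ℝ => h (√(∑ i, v i ^ 2)))
  rw [← h2]
  have h3 : ∀ x : EuclideanSpace ℝ (Fin m), √(∑ i, (WithLp.ofLp x) i ^ 2) = ‖x‖ := by
    intro x
    rw [EuclideanSpace.norm_eq]
    simp
  simp_rw [h3]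
  rw [h1, finrank_euclideanSpace_fin]
  simp only [smul_eq_mul, nsmul_eq_mul, cst]
  ring

theorem integral_rad (hm : 1 ≤ m) (j : Fin (m + 1)) {h : ℝ × ℝ → ℝ}
    (hint : Integrable (fun x : Fin (m + 1) → ℝ => h (x j, rad j x))) :
    ∫ x : Fin (m + 1) → ℝ, h (x j, rad j x) =
      cst m * ∫ y : ℝ, ∫ r in Ioi (0 : ℝ), r ^ (m - 1) * h (y, r) := by
  set e := MeasurableEquiv.piFinSuccAbove (fun _ : Fin (m + 1) => ℝ) j with he
  have hmp := volume_preserving_piFinSuccAbove (fun _ : Fin (m + 1) => ℝ) j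
  set G : ℝ × (Fin m → ℝ) → ℝ := fun q => h (q.1, √(∑ i, q.2 i ^ 2)) with hG
  have hGe : ∀ x : Fin (m + 1) → ℝ, G (e x) = h (x j, rad j x) := fun x => rfl
  have h1 : ∫ x : Fin (m + 1) → ℝ, h (x j, rad j x) = ∫ q, G q := by
    rw [← hmp.integral_comp e.measurableEmbedding G]
    rfl
  have hGint : Integrable G := by
    rw [← hmp.integrable_comp_emb e.measurableEmbedding]
    exact hint
  rw [h1, Measure.volume_eq_prod, integral_prod _ (by rw [← Measure.volume_eq_prod]; exact hGint)]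
  rw [← integral_const_mul]
  refine integral_congr_ae (Filter.Eventually.of_forall fun y => ?_)
  exact integral_norm_pi hm fun r => h (y, r)

/-- Integration over a body of revolution. -/
theorem setIntegral_rad (hm : 2 ≤ m) (j : Fin (m + 1)) {D : Set (ℝ × ℝ)} (hD : IsCompact D)
    (hpos : ∀ p ∈ D, 0 ≤ p.2) {K : Set (Fin (m + 1) → ℝ)} (hK : IsCompact K)
    (hKD : ∀ x, x ∈ K ↔ (x j, rad j x) ∈ D) {F : ℝ × ℝ → ℝ} (hF : Continuous F) :
    ∫ x in K, F (x j, rad j x) = cst m * ∫ p in D, F p * p.2 ^ (m - 1) := by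
  have hpair : Continuous fun x : Fin (m + 1) → ℝ => (x j, rad j x) :=
    (continuous_apply j).prodMk (continuous_rad j)
  have h1 : ∫ x in K, F (x j, rad j x) =
      ∫ x : Fin (m + 1) → ℝ, D.indicator F (x j, rad j x) := by
    rw [← integral_indicator hK.measurableSet]
    refine integral_congr_ae (Filter.Eventually.of_forall fun x => ?_)
    simp only [indicator]
    by_cases hx : x ∈ K
    · rw [if_pos hx, if_pos ((hKD x).1 hx)]
    · rw [if_neg hx, if_neg (fun h => hx ((hKD x).2 h))]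
  have h1i : Integrable (fun x : Fin (m + 1) → ℝ => D.indicator F (x j, rad j x)) := by
    have h2 : (fun x : Fin (m + 1) → ℝ => D.indicator F (x j, rad j x)) =
        K.indicator (fun x => F (x j, rad j x)) := by
      funext x
      simp only [indicator]
      by_cases hx : x ∈ K
      · rw [if_pos hx, if_pos ((hKD x).1 hx)]
      · rw [if_neg hx, if_neg (fun h => hx ((hKD x).2 h))]
    rw [h2, integrable_indicator_iff hK.measurableSet]
    exact (hF.comp hpair).continuousOn.integrableOn_compact hK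
  rw [h1, integral_rad (by omega) j h1i]
  congr 1
  have hW : Continuous fun p : ℝ × ℝ => F p * p.2 ^ (m - 1) := by fun_prop
  have h3i : Integrable (D.indicator fun p : ℝ × ℝ => F p * p.2 ^ (m - 1)) := by
    rw [integrable_indicator_iff hD.measurableSet]
    exact hW.continuousOn.integrableOn_compact hD
  rw [← integral_indicator hD.measurableSet, Measure.volume_eq_prod,
    integral_prod _ (by rw [← Measure.volume_eq_prod]; exact h3i)]
  refine integral_congr_ae (Filter.Eventually.of_forall fun y => ?_)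
  dsimp only
  have h4 : ∀ r : ℝ, r ^ (m - 1) * D.indicator F (y, r) =
      D.indicator (fun p : ℝ × ℝ => F p * p.2 ^ (m - 1)) (y, r) := by
    intro r
    simp only [indicator]
    split_ifs
    · ring
    · ring
  simp_rw [h4]
  refine setIntegral_eq_integral_of_forall_compl_eq_zero fun r hr => ?_
  rw [mem_Ioi, not_lt] at hr
  simp only [indicator]
  split_ifs with h5
  · have h6 : r = 0 := le_antisymm hr (hpos _ h5)
    rw [h6, zero_pow (by omega), mul_zero]
  · rfl

/-- The planar statement. -/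
def Planar (m n : ℕ) : Prop :=
  ∀ (D : Set (ℝ × ℝ)), IsCompact D → Convex ℝ D → (∀ p ∈ D, 0 ≤ p.2) → volume D ≠ 0 →
    ∫ p in D, p.1 * p.2 ^ (m - 1) = 0 → ∀ F : ℝ × ℝ → ℝ, Continuous F →
    (∀ p : Fin n → ℝ × ℝ, (∀ i, p i ∈ D) → ∑ i, (p i).1 = 0 →
      (∀ i, 2 * (p i).2 ≤ ∑ k, (p k).2) → 0 ≤ ∑ i, F (p i)) →
    0 ≤ ∫ p in D, F p * p.2 ^ (m - 1)

/-- the point with axial coordinate `y` and two more coordinates -/
noncomputable def pt (hm : 2 ≤ m) (j : Fin (m + 1)) (y r s : ℝ) : Fin (m + 1) → ℝ :=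
  j.insertNth (α := fun _ => ℝ) y
    (Pi.single (⟨0, by omega⟩ : Fin m) r + Pi.single (⟨1, by omega⟩ : Fin m) s)

theorem pt_axis (hm : 2 ≤ m) (j : Fin (m + 1)) (y r s : ℝ) : pt hm j y r s j = y := by
  unfold pt
  rw [Fin.insertNth_apply_same]

theorem pt_succAbove (hm : 2 ≤ m) (j : Fin (m + 1)) (y r s : ℝ) (i : Fin m) :
    pt hm j y r s (j.succAbove i) =
      (Pi.single (⟨0, by omega⟩ : Fin m) r + Pi.single (⟨1, by omega⟩ : Fin m) s : Fin m → ℝ) i := by
  unfold pt
  rw [Fin.insertNth_apply_succAbove]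

theorem pt_sum_sq (hm : 2 ≤ m) (j : Fin (m + 1)) (y r s : ℝ) :
    ∑ i, pt hm j y r s i ^ 2 = y ^ 2 + (r ^ 2 + s ^ 2) := by
  rw [Fin.sum_univ_succAbove _ j, pt_axis]
  simp_rw [pt_succAbove]
  congr 1
  have hne : (⟨0, by omega⟩ : Fin m) ≠ ⟨1, by omega⟩ := by
    intro h
    rw [Fin.mk.injEq] at h
    omega
  rw [← Finset.add_sum_erase _ _ (Finset.mem_univ (⟨0, by omega⟩ : Fin m)),
    ← Finset.add_sum_erase _ _ (show (⟨1, by omega⟩ : Fin m) ∈ Finset.univ.erase ⟨0, by omega⟩ from
      Finset.mem_erase.2 ⟨hne.symm, Finset.mem_univ _⟩)]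
  rw [Finset.sum_eq_zero]
  · simp [hne, hne.symm]
  · intro i hi
    rw [Finset.mem_erase, Finset.mem_erase] at hi
    simp [hi.1, hi.2.1]

theorem pt_linear (hm : 2 ≤ m) (j : Fin (m + 1)) (a b y r s y' r' s' : ℝ) :
    pt hm j (a * y + b * y') (a * r + b * r') (a * s + b * s') =
      a • pt hm j y r s + b • pt hm j y' r' s' := by
  funext i
  refine Fin.succAboveCases j ?_ (fun i => ?_) i
  · simp [pt_axis]
  · simp only [pt_succAbove, Pi.add_apply, Pi.smul_apply, smul_eq_mul, Pi.single_apply]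
    split_ifs <;> ring

theorem pt_sum (hm : 2 ≤ m) (j : Fin (m + 1)) {n : ℕ} (y r s : Fin n → ℝ) (hy : ∑ i, y i = 0)
    (hr : ∑ i, r i = 0) (hs : ∑ i, s i = 0) : ∑ i, pt hm j (y i) (r i) (s i) = 0 := by
  funext k
  rw [Finset.sum_apply]
  refine Fin.succAboveCases j ?_ (fun k => ?_) k
  · simp [pt_axis, hy]
  · simp only [pt_succAbove, Pi.add_apply, Pi.zero_apply]
    rw [Finset.sum_add_distrib]
    simp only [Pi.single_apply]
    split_ifs <;> simp [hr, hs]

theorem continuous_pt (hm : 2 ≤ m) (j : Fin (m + 1)) :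
    Continuous fun p : ℝ × ℝ => pt hm j p.1 p.2 0 := by
  rw [continuous_pi_iff]
  intro i
  refine Fin.succAboveCases j ?_ (fun i => ?_) i
  · simp only [pt_axis]
    exact continuous_fst
  · simp only [pt_succAbove, Pi.add_apply, Pi.single_apply]
    split_ifs <;> fun_prop

/-- The dual inequality for a body of revolution follows from the planar statement. -/
theorem dual_of_planar (hm : 2 ≤ m) {n : ℕ} (hP : Planar m n) (j : Fin (m + 1))
    {K : Set (Fin (m + 1) → ℝ)} (hK : IsCompact K) (hconv : Convex ℝ K) (hinv : Inv j K)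
    (hvol : volume K ≠ 0) (hcen : ∫ x in K, x j = 0) (g : C(Fin (m + 1) → ℝ, ℝ))
    (hg : ∀ x ∈ Conf n K, 0 ≤ ∑ i, g (x i)) : 0 ≤ ∫ x in K, g x := by
  obtain ⟨gb, hgb1, hgb2, hgb3⟩ := exists_avg j g hK hinv hg
  rw [← hgb2]
  set ι : ℝ × ℝ → Fin (m + 1) → ℝ := fun p => pt hm j p.1 p.2 0 with hι
  have hιc : Continuous ι := continuous_pt hm j
  set D : Set (ℝ × ℝ) := {p | 0 ≤ p.2 ∧ ι p ∈ K} with hDdef
  have hpos : ∀ p ∈ D, 0 ≤ p.2 := fun p hp => hp.1
  have hKD : ∀ x, x ∈ K ↔ (x j, rad j x) ∈ D := by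
    intro x
    have h1 : ∑ i, ι (x j, rad j x) i ^ 2 = ∑ i, x i ^ 2 := by
      rw [sum_sq_eq j x, hι]
      simp only
      rw [pt_sum_sq]
      ring
    have h2 : ι (x j, rad j x) j = x j := pt_axis hm j _ _ _
    constructor
    · intro hx
      exact ⟨rad_nonneg j x, hinv x hx _ h2 h1⟩
    · intro hx
      exact hinv _ hx.2 x h2.symm h1.symm
  have hDclosed : IsClosed D :=
    (isClosed_le continuous_const continuous_snd).inter (hK.isClosed.preimage hιc)
  have hD : IsCompact D := by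
    have h1 : IsCompact ((fun x : Fin (m + 1) → ℝ =>
        (x j, x (j.succAbove (⟨0, by omega⟩ : Fin m)))) '' K) := hK.image (by fun_prop)
    refine h1.of_isClosed_subset hDclosed ?_
    intro p hp
    refine ⟨ι p, hp.2, ?_⟩
    simp only [hι, pt_axis, pt_succAbove, Pi.add_apply, Pi.single_apply]
    ext <;> simp
  have hDconv : Convex ℝ D := by
    intro p hp q hq a b ha hb hab
    refine ⟨?_, ?_⟩
    · have h1 := mul_nonneg ha hp.1
      have h2 := mul_nonneg hb hq.1
      simp only [Prod.snd_add, Prod.smul_snd, smul_eq_mul]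
      linarith
    · have h1 := hconv hp.2 hq.2 ha hb hab
      have h2 : ι (a • p + b • q) = a • ι p + b • ι q := by
        simp only [hι, Prod.fst_add, Prod.smul_fst, Prod.snd_add, Prod.smul_snd, smul_eq_mul]
        rw [← pt_linear]
        simp
      rw [h2]
      exact h1
  set F : ℝ × ℝ → ℝ := fun p => gb (ι p) with hF
  have hFc : Continuous F := gb.continuous.comp hιc
  have hFx : ∀ x, gb x = F (x j, rad j x) := by
    intro x
    refine hgb1 _ _ (pt_axis hm j _ _ _).symm ?_
    rw [sum_sq_eq j x, hι]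
    simp only
    rw [pt_sum_sq]
    ring
  have hI1 := setIntegral_rad hm j hD hpos hK hKD hFc
  have hI2 := setIntegral_rad hm j hD hpos hK hKD (F := fun p => p.1) continuous_fst
  have hI3 := setIntegral_rad hm j hD hpos hK hKD (F := fun _ => (1 : ℝ)) continuous_const
  have hc := cst_pos (m := m) (by omega)
  have hDvol : volume D ≠ 0 := by
    intro h
    rw [setIntegral_measure_zero _ h, mul_zero] at hI3
    simp only [setIntegral_const, smul_eq_mul, mul_one] at hI3
    have := (ENNReal.toReal_eq_zero_iff _).1 hI3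
    rcases this with h1 | h1
    · exact hvol h1
    · exact hK.measure_lt_top.ne h1
  have hDcen : ∫ p in D, p.1 * p.2 ^ (m - 1) = 0 := by
    simp only at hI2
    rw [hcen] at hI2
    rcases mul_eq_zero.1 hI2.symm with h | h
    · exact absurd h hc.ne'
    · exact h
  have key := hP D hD hDconv hpos hDvol hDcen F hFc (by
    intro p hp hs hr
    obtain ⟨z, hz, hz0⟩ := exists_polygon (fun i => (p i).2) (fun i => hpos _ (hp i)) hr
    have h1 : ∀ i, pt hm j (p i).1 (z i).re (z i).im ∈ K := by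
      intro i
      refine hinv _ (hp i).2 _ ?_ ?_
      · simp only [hι, pt_axis]
      · simp only [hι]
        rw [pt_sum_sq, pt_sum_sq]
        have h2 : (z i).re ^ 2 + (z i).im ^ 2 = (p i).2 ^ 2 := by
          rw [← hz i, Complex.sq_norm, Complex.normSq_apply]
          ring
        rw [h2]
        ring
    have h3 := hgb3 (fun i => pt hm j (p i).1 (z i).re (z i).im) ⟨h1, by
      refine pt_sum hm j _ _ _ hs ?_ ?_
      · have := congrArg Complex.re hz0
        simpa using this
      · have := congrArg Complex.im hz0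
        simpa using this⟩
    refine h3.trans_eq (Finset.sum_congr rfl fun i _ => ?_)
    refine hgb1 _ _ ?_ ?_
    · simp only [hι, pt_axis]
    · simp only [hι]
      rw [pt_sum_sq, pt_sum_sq]
      have h2 : (z i).re ^ 2 + (z i).im ^ 2 = (p i).2 ^ 2 := by
        rw [← hz i, Complex.sq_norm, Complex.normSq_apply]
        ring
      rw [h2]
      ring)
  have hfin : ∫ x in K, gb x = ∫ x in K, F (x j, rad j x) :=
    setIntegral_congr_fun hK.measurableSet fun x _ => hFx x
  rw [hfin, hI1]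
  exact mul_nonneg hc.le key

end Pool.Agent.Lib.MP_a34d76_pr.Rev
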