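import Mathlib
import Pool.Agent.Lib.MP_a34d76_pr.Rev.Reduce
import Pool.Agent.Lib.MP_a34d76_pr.SymFinal

/-!
# Bodies of revolution: from the planar statement to complete mixability (MP_a34d76_pr)
-/

set_option autoImplicit false

open MeasureTheory Set Topology

namespace Pool.Agent.Lib.MP_a34d76_pr.Rev

variable {m : ℕ}

theorem inv_closure {d : ℕ} {j : Fin d} {C : Set (Fin d → ℝ)} (h : Inv j C) :
    Inv j (closure C) := by
  intro x hx y hy1 hy2
  obtain ⟨V, hV⟩ := exists_act j x y hy1.symm hy2.symm
  rw [← hV]
  have hc : Continuous (act j V) := (continuous_act j).comp (continuous_id.prodMk continuous_const)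
  exact map_mem_closure hc hx fun z hz => h.act_mem V hz

/-- Complete mixability for a body of revolution about the coordinate axis `j`, from the planar
statement. -/
theorem mixable_axis (hm : 2 ≤ m) {n : ℕ} (hn : 0 < n) (hP : Planar m n)
    {C : Set (Fin (m + 1) → ℝ)} (hC : Convex ℝ C) (h0 : volume C ≠ 0) (h1 : volume C ≠ ⊤)
    (j : Fin (m + 1)) (hinv : Inv j C) :
    ∃ P : Measure (Fin n → (Fin (m + 1) → ℝ)),
      IsProbabilityMeasure P ∧
      (∀ i : Fin n, P.map (fun x : Fin n → (Fin (m + 1) → ℝ) => x i)
        = (volume C)⁻¹ • volume.restrict C) ∧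
      ∃ c : Fin (m + 1) → ℝ, ∀ᵐ x ∂P, (∑ i, x i) = c := by
  have hP' := isProb_Uf h0 h1
  set a : ℝ := ∫ x, x j ∂(Uf C) with ha
  set c : Fin (m + 1) → ℝ := Pi.single j a with hc
  refine mixable_of_dual_translate hC h0 h1 hn c fun hconv h0' h1' g hg => ?_
  set C' : Set (Fin (m + 1) → ℝ) := (fun y => y + c) ⁻¹' C with hC'
  have hinv' : Inv j C' := by
    intro x hx y hy1 hy2
    simp only [hC', mem_preimage] at hx ⊢
    refine hinv _ hx _ ?_ ?_
    · simp [hy1]
    · have h2 : ∀ z : Fin (m + 1) → ℝ, ∑ i, (z + c) i ^ 2 = ∑ i, z i ^ 2 + (2 * z j * a + a ^ 2) := by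
        intro z
        have h3 : ∀ i, (z + c) i ^ 2 = z i ^ 2 + (if i = j then 2 * z j * a + a ^ 2 else 0) := by
          intro i
          rw [hc, Pi.add_apply, Pi.single_apply]
          split_ifs with h
          · subst h; ring
          · ring
        simp_rw [h3]
        rw [Finset.sum_add_distrib]
        simp
      rw [h2, h2, hy1, hy2]
  have hKc : IsCompact (closure C') := (isBounded_of_convex hconv h0' h1').isCompact_closure
  have hae : closure C' =ᵐ[volume] C' := by
    refine (ae_le_set.2 ?_).antisymm subset_closure.eventuallyLE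
    refine measure_mono_null ?_ (hconv.addHaar_frontier volume)
    intro x hx
    exact ⟨hx.1, fun h => hx.2 (interior_subset h)⟩
  have hvol : volume (closure C') ≠ 0 := by
    rw [measure_congr hae]; exact h0'
  have hcen : ∫ x in closure C', x j = 0 := by
    rw [setIntegral_congr_set hae]
    have hemb : MeasurableEmbedding fun y : Fin (m + 1) → ℝ => y + c :=
      measurableEmbedding_addRight c
    have hmp : MeasurePreserving (fun y : Fin (m + 1) → ℝ => y + c) volume volume :=
      measurePreserving_add_right volume c
    have hvolC : volume C' = volume C := by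
      rw [hC']; exact measure_preimage_add_right volume c C
    have h2 : ∫ x in C', (x + c) j = ∫ x in C, x j :=
      hmp.setIntegral_preimage_emb hemb (fun x => x j) C
    have hi : IntegrableOn (fun x : Fin (m + 1) → ℝ => x j) C' :=
      integrableOn_cont hconv h0' h1' (by fun_prop)
    have h3 : ∫ x in C', (x + c) j = (∫ x in C', x j) + volume.real C' * a := by
      have e : ∀ x : Fin (m + 1) → ℝ, (x + c) j = x j + a := by
        intro x
        simp [hc]
      simp_rw [e]
      have hfin : IsFiniteMeasure (volume.restrict C') :=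
        ⟨by rw [Measure.restrict_apply_univ]; exact lt_top_iff_ne_top.2 h1'⟩
      rw [integral_add hi (integrable_const a)]
      simp
    have h4 : a = (volume.real C)⁻¹ * ∫ x in C, x j := by
      rw [ha, integral_Uf]
    have h5 : volume.real C' = volume.real C := by
      simp only [Measure.real, hvolC]
    have h6 : volume.real C ≠ 0 := by
      rw [Measure.real]
      exact ENNReal.toReal_ne_zero.2 ⟨h0, h1⟩
    rw [h3, h5] at h2
    rw [h4, mul_inv_cancel_left₀ h6] at h2
    linarith
  have hfin := dual_of_planar hm hP j hKc hconv.closure (inv_closure hinv') hvol hcen g hg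
  rw [setIntegral_congr_set hae] at hfin
  rw [integral_Uf]
  exact mul_nonneg (by positivity) hfin

end Pool.Agent.Lib.MP_a34d76_pr.Rev
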