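import Mathlib
import Pool.Agent.Lib.MP_a34d76_pr.Rev.Assemble

/-!
# Affine images (MP_a34d76_pr)
-/

set_option autoImplicit false

open MeasureTheory Set Topology
open scoped ENNReal

namespace Pool.Agent.Lib.MP_a34d76_pr.Rev

/-- Complete mixability of the uniform law is invariant under affine isomorphisms. -/
theorem mixable_of_affine {d n : ℕ} {C : Set (Fin d → ℝ)}
    (T : (Fin d → ℝ) ≃ᵃ[ℝ] (Fin d → ℝ))
    (H : ∃ P : Measure (Fin n → (Fin d → ℝ)),
      IsProbabilityMeasure P ∧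
      (∀ i : Fin n, P.map (fun x : Fin n → (Fin d → ℝ) => x i)
        = (volume (T '' C))⁻¹ • volume.restrict (T '' C)) ∧
      ∃ c : Fin d → ℝ, ∀ᵐ x ∂P, (∑ i, x i) = c) :
    ∃ P : Measure (Fin n → (Fin d → ℝ)),
      IsProbabilityMeasure P ∧
      (∀ i : Fin n, P.map (fun x : Fin n → (Fin d → ℝ) => x i)
        = (volume C)⁻¹ • volume.restrict C) ∧
      ∃ c : Fin d → ℝ, ∀ᵐ x ∂P, (∑ i, x i) = c := by
  obtain ⟨P, hP, hPm, c, hc⟩ := H
  set S : (Fin d → ℝ) ≃ᵃ[ℝ] (Fin d → ℝ) := T.symm with hS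
  set L : (Fin d → ℝ) →ₗ[ℝ] (Fin d → ℝ) := (S.linear : (Fin d → ℝ) →ₗ[ℝ] (Fin d → ℝ)) with hL
  have hSx : ∀ x, S x = L x + S 0 := by
    intro x
    have := S.map_vadd 0 x
    rw [vadd_eq_add, vadd_eq_add, add_zero] at this
    exact this
  have hScont : Continuous S := by
    have h1 : (S : (Fin d → ℝ) → (Fin d → ℝ)) = fun x => L x + S 0 := funext hSx
    rw [h1]
    exact (LinearMap.continuous_of_finiteDimensional L).add continuous_const
  have hdet : LinearMap.det L ≠ 0 := by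
    have h1 : LinearMap.det L * LinearMap.det (S.linear.symm : (Fin d → ℝ) →ₗ[ℝ] (Fin d → ℝ)) = 1 :=
      LinearEquiv.det_mul_det_symm S.linear
    exact left_ne_zero_of_mul_eq_one h1
  set k : ℝ≥0∞ := ENNReal.ofReal |(LinearMap.det L)⁻¹| with hk
  have hk0 : k ≠ 0 := by
    rw [hk]
    simp [hdet]
  have hk1 : k ≠ ⊤ := ENNReal.ofReal_ne_top
  have hmapL : (volume : Measure (Fin d → ℝ)).map L = k • volume :=
    Measure.map_linearMap_addHaar_eq_smul_addHaar volume hdet
  have hLm : Measurable L := (LinearMap.continuous_of_finiteDimensional L).measurable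
  have hmapS : (volume : Measure (Fin d → ℝ)).map S = k • volume := by
    have h1 : (S : (Fin d → ℝ) → (Fin d → ℝ)) = (fun y => y + S 0) ∘ L := funext hSx
    rw [h1, ← Measure.map_map (measurable_add_const _) hLm, hmapL, Measure.map_smul,
      map_add_right_eq_self]
  have hSemb : MeasurableEmbedding S :=
    hScont.measurableEmbedding S.injective
  have hpre : S ⁻¹' C = T '' C := by
    rw [hS]
    ext x
    constructor
    · intro hx
      exact ⟨T.symm x, hx, by simp⟩
    · rintro ⟨y, hy, rfl⟩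
      simpa using hy
  have hvol : volume (T '' C) = k * volume C := by
    rw [← hpre, ← hSemb.map_apply, hmapS, Measure.smul_apply, smul_eq_mul]
  have hmap : ((volume (T '' C))⁻¹ • volume.restrict (T '' C)).map S =
      (volume C)⁻¹ • volume.restrict C := by
    rw [Measure.map_smul, ← hpre, ← hSemb.restrict_map, hmapS, Measure.restrict_smul, hpre, hvol,
      smul_smul, ENNReal.mul_inv (Or.inl hk0) (Or.inl hk1), mul_comm k⁻¹, mul_assoc,
      ENNReal.inv_mul_cancel hk0 hk1, mul_one]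
  have hTm : Measurable fun (x : Fin n → Fin d → ℝ) (i : Fin n) => S (x i) :=
    measurable_pi_iff.2 fun i => hScont.measurable.comp (measurable_pi_apply i)
  refine ⟨P.map fun x i => S (x i), Measure.isProbabilityMeasure_map hTm.aemeasurable,
    fun i => ?_, L c + n • S 0, ?_⟩
  · rw [Measure.map_map (measurable_pi_apply i) hTm]
    change P.map (S ∘ fun x : Fin n → Fin d → ℝ => x i) = _
    rw [← Measure.map_map hScont.measurable (measurable_pi_apply i), hPm i, hmap]
  · rw [ae_map_iff hTm.aemeasurable (measurableSet_eq_fun (by fun_prop) measurable_const)]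
    filter_upwards [hc] with x hx
    rw [Finset.sum_congr rfl (fun i _ => hSx (x i)), Finset.sum_add_distrib, ← map_sum, hx]
    simp

variable {m : ℕ}

/-- Complete mixability for affine images of bodies of revolution, from the planar statement. -/
theorem mixable_rev (hm : 2 ≤ m) {n : ℕ} (hn : 0 < n) (hP : Planar m n)
    {C : Set (Fin (m + 1) → ℝ)} (hC : Convex ℝ C) (h0 : volume C ≠ 0) (h1 : volume C ≠ ⊤)
    (T : (Fin (m + 1) → ℝ) ≃ᵃ[ℝ] (Fin (m + 1) → ℝ)) (j : Fin (m + 1))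
    (hrev : ∀ x ∈ C, ∀ y, T y j = T x j → ∑ i, T y i ^ 2 = ∑ i, T x i ^ 2 → y ∈ C) :
    ∃ P : Measure (Fin n → (Fin (m + 1) → ℝ)),
      IsProbabilityMeasure P ∧
      (∀ i : Fin n, P.map (fun x : Fin n → (Fin (m + 1) → ℝ) => x i)
        = (volume C)⁻¹ • volume.restrict C) ∧
      ∃ c : Fin (m + 1) → ℝ, ∀ᵐ x ∂P, (∑ i, x i) = c := by
  refine mixable_of_affine T ?_
  have hTx : ∀ x, T x = (T.linear : (Fin (m + 1) → ℝ) →ₗ[ℝ] (Fin (m + 1) → ℝ)) x + T 0 := by
    intro x
    have := T.map_vadd 0 x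
    rw [vadd_eq_add, vadd_eq_add, add_zero] at this
    exact this
  have himg : T '' C = (fun y => y + T 0) ''
      ((T.linear : (Fin (m + 1) → ℝ) →ₗ[ℝ] (Fin (m + 1) → ℝ)) '' C) := by
    rw [image_image]
    exact image_congr fun x _ => hTx x
  have hdet : LinearMap.det (T.linear : (Fin (m + 1) → ℝ) →ₗ[ℝ] (Fin (m + 1) → ℝ)) ≠ 0 :=
    left_ne_zero_of_mul_eq_one (LinearEquiv.det_mul_det_symm T.linear)
  have hvol : volume (T '' C) = ENNReal.ofReal
      |LinearMap.det (T.linear : (Fin (m + 1) → ℝ) →ₗ[ℝ] (Fin (m + 1) → ℝ))| * volume C := by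
    rw [himg, ← Measure.addHaar_image_linearMap volume]
    simp
  refine mixable_axis hm hn hP ?_ ?_ ?_ j ?_
  · exact hC.affine_image (T : (Fin (m + 1) → ℝ) →ᵃ[ℝ] (Fin (m + 1) → ℝ))
  · rw [hvol]
    refine mul_ne_zero ?_ h0
    simp [hdet]
  · rw [hvol]
    exact ENNReal.mul_ne_top ENNReal.ofReal_ne_top h1
  · rintro _ ⟨x, hx, rfl⟩ y hy1 hy2
    refine ⟨T.symm y, hrev x hx _ ?_ ?_, by simp⟩
    · simpa using hy1
    · simpa using hy2

end Pool.Agent.Lib.MP_a34d76_pr.Rev
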