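import Mathlib

/-! # Complete mixability is affinely invariant -/

set_option autoImplicit false

open MeasureTheory Filter Topology Set

namespace Pool.Agent.Lib.MP_a34d76_pr.Rev

/-- `n` random vectors, each uniform on `C`, whose sum is almost surely constant -/
def Mixable (n : ℕ) {d : ℕ} (C : Set (Fin d → ℝ)) : Prop :=
  ∃ P : Measure (Fin n → (Fin d → ℝ)),
    IsProbabilityMeasure P ∧
    (∀ i : Fin n, P.map (fun x : Fin n → (Fin d → ℝ) => x i)
      = (volume C)⁻¹ • volume.restrict C) ∧
    ∃ c : Fin d → ℝ, ∀ᵐ x ∂P, (∑ i, x i) = c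

/-- Complete mixability is affinely invariant. -/
theorem Mixable.of_image {n d : ℕ} {C : Set (Fin d → ℝ)}
    (L : (Fin d → ℝ) ≃ᵃ[ℝ] (Fin d → ℝ)) (h : Mixable n (L '' C)) : Mixable n C := by
  obtain ⟨P, hP, hPm, c, hc⟩ := h
  set T : (Fin d → ℝ) ≃ᵃ[ℝ] (Fin d → ℝ) := L.symm with hT
  have hTc : Continuous T := T.toAffineMap.continuous_of_finiteDimensional
  have hLc : Continuous L := L.toAffineMap.continuous_of_finiteDimensional
  set e : (Fin d → ℝ) ≃ₜ (Fin d → ℝ) := Homeomorph.mk T.toEquiv hTc (by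
    have h3 : (T.toEquiv.invFun : (Fin d → ℝ) → (Fin d → ℝ)) = L := by
      funext x
      show T.symm x = L x
      rw [AffineEquiv.symm_apply_eq]
      exact (L.symm_apply_apply x).symm
    rw [h3]
    exact hLc) with he
  have heT : ∀ x, e x = T x := fun x => rfl
  obtain ⟨κ, hκ0, hκ1, hκ⟩ : ∃ κ : ENNReal, κ ≠ 0 ∧ κ ≠ ⊤ ∧
      (volume : Measure (Fin d → ℝ)).map T = κ • volume := by
    have hdet : LinearMap.det (T.linear : (Fin d → ℝ) →ₗ[ℝ] (Fin d → ℝ)) ≠ 0 :=
      (LinearEquiv.isUnit_det' T.linear).ne_zero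
    refine ⟨ENNReal.ofReal |(LinearMap.det (T.linear : (Fin d → ℝ) →ₗ[ℝ] (Fin d → ℝ)))⁻¹|, ?_,
      ENNReal.ofReal_ne_top, ?_⟩
    · rw [ne_eq, ENNReal.ofReal_eq_zero, not_le]
      positivity
    · have hTe : (T : (Fin d → ℝ) → (Fin d → ℝ)) =
          (fun y => y + T 0) ∘ (T.linear : (Fin d → ℝ) →ₗ[ℝ] (Fin d → ℝ)) := by
        funext x
        simp only [Function.comp_apply]
        have h3 := T.map_vadd 0 x
        rw [vadd_eq_add, vadd_eq_add, add_zero] at h3
        exact h3
      rw [hTe, ← Measure.map_map (by fun_prop) (LinearMap.continuous_of_finiteDimensional _).measurable,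
        Measure.map_linearMap_addHaar_eq_smul_addHaar _ hdet, Measure.map_smul,
        map_add_right_eq_self]
  have hpre : T ⁻¹' C = L '' C := by
    ext x
    rw [mem_preimage]
    constructor
    · intro hx
      exact ⟨T x, hx, by simp [hT]⟩
    · rintro ⟨y, hy, rfl⟩
      simpa [hT] using hy
  have hvol : volume (L '' C) = κ * volume C := by
    have h2 : ((volume : Measure (Fin d → ℝ)).map T) C = κ * volume C := by
      rw [hκ, Measure.smul_apply, smul_eq_mul]
    rw [← h2, ← hpre]
    exact (e.measurableEmbedding.map_apply volume C).symm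
  have hmap : ((volume (L '' C))⁻¹ • volume.restrict (L '' C)).map T =
      (volume C)⁻¹ • volume.restrict C := by
    rw [Measure.map_smul, hvol, ← hpre]
    have h2 : (volume.restrict (T ⁻¹' C)).map T = ((volume : Measure (Fin d → ℝ)).map T).restrict C :=
      (e.measurableEmbedding.restrict_map volume C).symm
    rw [h2, hκ, Measure.restrict_smul, smul_smul]
    congr 1
    rw [ENNReal.mul_inv (Or.inl hκ0) (Or.inl hκ1), mul_comm κ⁻¹, mul_assoc,
      ENNReal.inv_mul_cancel hκ0 hκ1, mul_one]
  have hG : Continuous (fun x : Fin n → Fin d → ℝ => fun i => T (x i)) :=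
    continuous_pi fun i => hTc.comp (continuous_apply i)
  refine ⟨P.map (fun x i => T (x i)), Measure.isProbabilityMeasure_map hG.aemeasurable, fun i => ?_,
    T.linear c + (n : ℝ) • T 0, ?_⟩
  · rw [Measure.map_map (measurable_pi_apply i) hG.measurable, ← hmap, ← hPm i,
      Measure.map_map hTc.measurable (measurable_pi_apply i)]
    rfl
  · rw [ae_map_iff hG.aemeasurable (measurableSet_eq_fun (by fun_prop) measurable_const)]
    filter_upwards [hc] with x hx
    have hTx : ∀ y, T y = T.linear y + T 0 := by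
      intro y
      have h3 := T.map_vadd 0 y
      rw [vadd_eq_add, vadd_eq_add, add_zero] at h3
      exact h3
    show ∑ i, T (x i) = _
    rw [Finset.sum_congr rfl fun i _ => hTx (x i), Finset.sum_add_distrib, ← map_sum, hx, Finset.sum_const, Finset.card_univ,
      Fintype.card_fin, ← Nat.cast_smul_eq_nsmul ℝ]

end Pool.Agent.Lib.MP_a34d76_pr.Rev
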