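import Mathlib

/-! # Bisection of planar convex sets keeping one integral equal to zero -/

set_option autoImplicit false

open MeasureTheory Filter Topology Set

namespace Pool.Agent.Lib.MP_a34d76_pr.Rev

/-- signed distance to the line through `p` with normal `(cos θ, sin θ)` -/
noncomputable def kk (p : ℝ × ℝ) (θ : ℝ) (z : ℝ × ℝ) : ℝ :=
  Real.cos θ * (z.1 - p.1) + Real.sin θ * (z.2 - p.2)

theorem continuous_kk (p : ℝ × ℝ) : Continuous fun q : ℝ × (ℝ × ℝ) => kk p q.1 q.2 := by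
  unfold kk; fun_prop

theorem continuous_kk_right (p : ℝ × ℝ) (θ : ℝ) : Continuous (kk p θ) := by
  unfold kk; fun_prop

theorem continuous_kk_left (p z : ℝ × ℝ) : Continuous fun θ => kk p θ z := by
  unfold kk; fun_prop

theorem kk_add_pi (p : ℝ × ℝ) (θ : ℝ) (z : ℝ × ℝ) : kk p (θ + Real.pi) z = -kk p θ z := by
  unfold kk; rw [Real.cos_add_pi, Real.sin_add_pi]; ring

/-- the half plane -/
def HH (p : ℝ × ℝ) (θ : ℝ) : Set (ℝ × ℝ) := {z | 0 ≤ kk p θ z}

theorem isClosed_HH (p : ℝ × ℝ) (θ : ℝ) : IsClosed (HH p θ) :=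
  isClosed_le continuous_const (continuous_kk_right p θ)

theorem kk_comb (p : ℝ × ℝ) (θ : ℝ) (x y : ℝ × ℝ) {a b : ℝ} (hab : a + b = 1) :
    kk p θ (a • x + b • y) = a * kk p θ x + b * kk p θ y := by
  unfold kk
  have : b = 1 - a := by linarith
  subst this
  simp only [Prod.fst_add, Prod.smul_fst, smul_eq_mul, Prod.snd_add, Prod.smul_snd]
  ring

theorem convex_HH (p : ℝ × ℝ) (θ : ℝ) : Convex ℝ (HH p θ) := by
  intro x hx y hy a b ha hb hab
  have hx' : 0 ≤ kk p θ x := hx
  have hy' : 0 ≤ kk p θ y := hy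
  show 0 ≤ kk p θ (a • x + b • y)
  rw [kk_comb p θ x y hab]
  positivity

/-- lines are null sets -/
theorem line_null (p : ℝ × ℝ) (θ : ℝ) : ∀ᵐ z : ℝ × ℝ, kk p θ z ≠ 0 := by
  set ℓ : (ℝ × ℝ) →ₗ[ℝ] ℝ :=
    Real.cos θ • LinearMap.fst ℝ ℝ ℝ + Real.sin θ • LinearMap.snd ℝ ℝ ℝ with hℓ
  have hℓe : ∀ z, ℓ z = Real.cos θ * z.1 + Real.sin θ * z.2 := by
    intro z; simp [hℓ]
  have hne : LinearMap.ker ℓ ≠ ⊤ := by
    intro h
    have h1 : ((Real.cos θ, Real.sin θ) : ℝ × ℝ) ∈ LinearMap.ker ℓ := by rw [h]; trivial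
    rw [LinearMap.mem_ker, hℓe] at h1
    have := Real.sin_sq_add_cos_sq θ
    simp only at h1
    nlinarith
  have h0 := Measure.addHaar_submodule (volume : Measure (ℝ × ℝ)) _ hne
  have h1 : {z : ℝ × ℝ | ¬ kk p θ z ≠ 0} = (fun z => z + (-p)) ⁻¹' (LinearMap.ker ℓ : Set (ℝ × ℝ)) := by
    ext z
    simp only [ne_eq, not_not, Set.mem_ofPred_eq, mem_preimage, SetLike.mem_coe, LinearMap.mem_ker, hℓe,
      kk, Prod.fst_add, Prod.snd_add, Prod.fst_neg, Prod.snd_neg]
    constructor <;> intro h <;> linarith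
  rw [ae_iff, h1, measure_preimage_add_right]
  exact h0

theorem integral_HH_continuous {D : Set (ℝ × ℝ)} (hDc : IsCompact D) {w : ℝ × ℝ → ℝ}
    (hw : Continuous w) (p : ℝ × ℝ) : Continuous fun θ => ∫ z in D ∩ HH p θ, w z := by
  have hm : MeasurableSet D := hDc.isClosed.measurableSet
  have e : (fun θ => ∫ z in D ∩ HH p θ, w z) =
      fun θ => ∫ z in D, (HH p θ).indicator w z := by
    funext θ
    rw [setIntegral_indicator (isClosed_HH p θ).measurableSet]
  rw [e]
  have hint : IntegrableOn w D := hw.continuousOn.integrableOn_compact hDc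
  rw [continuous_iff_continuousAt]
  intro θ₀
  apply continuousAt_of_dominated (bound := fun z => ‖w z‖)
  · exact Eventually.of_forall fun θ =>
      (hw.aestronglyMeasurable.indicator (isClosed_HH p θ).measurableSet)
  · exact Eventually.of_forall fun θ => Eventually.of_forall fun z => norm_indicator_le_norm_self _ _
  · exact hint.norm
  · have h1 : ∀ᵐ z ∂(volume.restrict D), kk p θ₀ z ≠ 0 := ae_restrict_of_ae (line_null p θ₀)
    filter_upwards [h1] with z hz
    rcases lt_or_gt_of_ne hz with h | h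
    · have h2 : ∀ᶠ θ in 𝓝 θ₀, kk p θ z < 0 :=
        (continuous_kk_left p z).continuousAt.eventually (gt_mem_nhds h)
      have h3 : (fun θ => (HH p θ).indicator w z) =ᶠ[𝓝 θ₀] fun _ => 0 := by
        filter_upwards [h2] with θ hθ
        rw [indicator_of_notMem]
        intro h4
        exact absurd (h4 : 0 ≤ kk p θ z) (not_le.2 hθ)
      exact continuousAt_const.congr h3.symm
    · have h2 : ∀ᶠ θ in 𝓝 θ₀, 0 < kk p θ z :=
        (continuous_kk_left p z).continuousAt.eventually (lt_mem_nhds h)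
      have h3 : (fun θ => (HH p θ).indicator w z) =ᶠ[𝓝 θ₀] fun _ => w z := by
        filter_upwards [h2] with θ hθ
        exact indicator_of_mem (show z ∈ HH p θ from hθ.le) w
      exact continuousAt_const.congr h3.symm

theorem integral_HH_add {D : Set (ℝ × ℝ)} (hDc : IsCompact D) {w : ℝ × ℝ → ℝ}
    (hw : Continuous w) (p : ℝ × ℝ) (θ : ℝ) :
    (∫ z in D ∩ HH p θ, w z) + (∫ z in D ∩ HH p (θ + Real.pi), w z) = ∫ z in D, w z := by
  have hint : IntegrableOn w D := hw.continuousOn.integrableOn_compact hDc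
  rw [← setIntegral_indicator (isClosed_HH p θ).measurableSet,
    ← setIntegral_indicator (isClosed_HH p (θ + Real.pi)).measurableSet,
    ← integral_add (hint.indicator (isClosed_HH p θ).measurableSet)
      (hint.indicator (isClosed_HH p _).measurableSet)]
  apply integral_congr_ae
  filter_upwards [ae_restrict_of_ae (s := D) (line_null p θ)] with z hz
  rcases lt_or_gt_of_ne hz with h | h
  · rw [indicator_of_notMem (show z ∉ HH p θ from fun h4 => absurd h4 (not_le.2 h)),
      indicator_of_mem (show z ∈ HH p (θ + Real.pi) by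
        show 0 ≤ kk p (θ + Real.pi) z
        rw [kk_add_pi]; linarith), zero_add]
  · rw [indicator_of_mem (show z ∈ HH p θ from h.le),
      indicator_of_notMem (show z ∉ HH p (θ + Real.pi) by
        intro h4
        have h5 : 0 ≤ kk p (θ + Real.pi) z := h4
        rw [kk_add_pi] at h5; linarith), add_zero]

/-- Bisection. -/
theorem bisect {D : Set (ℝ × ℝ)} (hDc : IsCompact D) {w v : ℝ × ℝ → ℝ} (hw : Continuous w)
    (hv : Continuous v) (hw0 : ∫ z in D, w z = 0) (hv0 : ∫ z in D, v z ≤ 0) (p : ℝ × ℝ) :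
    ∃ θ : ℝ, ∫ z in D ∩ HH p θ, w z = 0 ∧ ∫ z in D ∩ HH p θ, v z ≤ 0 := by
  obtain ⟨θ, -, hθ⟩ : (0 : ℝ) ∈ (fun θ => ∫ z in D ∩ HH p θ, w z) '' uIcc 0 Real.pi := by
    apply intermediate_value_uIcc (integral_HH_continuous hDc hw p).continuousOn
    have h1 := integral_HH_add hDc hw p 0
    rw [hw0, zero_add] at h1
    rw [mem_uIcc]
    rcases le_total (∫ z in D ∩ HH p 0, w z) 0 with h | h
    · left; constructor <;> linarith
    · right; constructor <;> linarith
  simp only at hθ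
  have h2 := integral_HH_add hDc hw p θ
  have h3 := integral_HH_add hDc hv p θ
  rcases le_total (∫ z in D ∩ HH p θ, v z) 0 with h | h
  · exact ⟨θ, hθ, h⟩
  · exact ⟨θ + Real.pi, by linarith, by linarith⟩

/-- What is kept along the bisection process. -/
structure Good (w v : ℝ × ℝ → ℝ) (D : Set (ℝ × ℝ)) : Prop where
  convex : Convex ℝ D
  compact : IsCompact D
  int : (interior D).Nonempty
  hw : ∫ z in D, w z = 0
  hv : ∫ z in D, v z ≤ 0

theorem Good.step {w v : ℝ × ℝ → ℝ} (hw : Continuous w) (hv : Continuous v) {D : Set (ℝ × ℝ)}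
    (hD : Good w v D) (p : ℝ × ℝ) : ∃ D' ⊆ D, Good w v D' ∧ p ∉ interior D' := by
  by_cases hp : p ∈ interior D
  · obtain ⟨θ, h1, h2⟩ := bisect hD.compact hw hv hD.hw hD.hv p
    have hcs := Real.sin_sq_add_cos_sq θ
    have hk : ∀ ε : ℝ, kk p θ (p + ε • (Real.cos θ, Real.sin θ)) = ε := by
      intro ε
      simp only [kk, Prod.fst_add, Prod.smul_fst, smul_eq_mul, Prod.snd_add, Prod.smul_snd]
      linear_combination ε * hcs
    have hcont : Continuous fun ε : ℝ => p + ε • ((Real.cos θ, Real.sin θ) : ℝ × ℝ) := by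
      fun_prop
    refine ⟨D ∩ HH p θ, inter_subset_left, ⟨hD.convex.inter (convex_HH p θ),
      hD.compact.inter_right (isClosed_HH p θ), ?_, h1, h2⟩, ?_⟩
    · have h3 : ∀ᶠ ε in 𝓝 (0 : ℝ), p + ε • ((Real.cos θ, Real.sin θ) : ℝ × ℝ) ∈ interior D := by
        apply hcont.continuousAt.eventually
        apply isOpen_interior.mem_nhds
        simpa using hp
      obtain ⟨ε, hε, hε0⟩ := (h3.filter_mono (nhdsWithin_le_nhds (s := Ioi 0))
        |>.and self_mem_nhdsWithin).exists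
      have hε0' : 0 < ε := hε0
      refine ⟨p + ε • (Real.cos θ, Real.sin θ), ?_⟩
      rw [mem_interior]
      refine ⟨interior D ∩ {z | 0 < kk p θ z}, ?_, isOpen_interior.inter
        (isOpen_lt continuous_const (continuous_kk_right p θ)), hε, ?_⟩
      · rintro z ⟨hz1, hz2⟩
        exact ⟨interior_subset hz1, le_of_lt (show 0 < kk p θ z from hz2)⟩
      · show 0 < kk p θ _
        rw [hk]; exact hε0'
    · intro h
      have h3 : ∀ᶠ ε in 𝓝 (0 : ℝ), p + ε • ((Real.cos θ, Real.sin θ) : ℝ × ℝ) ∈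
          interior (D ∩ HH p θ) := by
        apply hcont.continuousAt.eventually
        apply isOpen_interior.mem_nhds
        simpa using h
      obtain ⟨ε, hε, hε0⟩ := (h3.filter_mono (nhdsWithin_le_nhds (s := Iio 0))
        |>.and self_mem_nhdsWithin).exists
      have hε0' : ε < 0 := hε0
      have h4 : 0 ≤ kk p θ (p + ε • (Real.cos θ, Real.sin θ)) := (interior_subset hε).2
      rw [hk] at h4
      linarith
  · exact ⟨D, Subset.rfl, hD, hp⟩

/-- The bisection process: a decreasing sequence of good sets whose intersection has empty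
interior. -/
theorem exists_sequence {w v : ℝ × ℝ → ℝ} (hw : Continuous w) (hv : Continuous v)
    {D : Set (ℝ × ℝ)} (hD : Good w v D) :
    ∃ S : ℕ → Set (ℝ × ℝ), (∀ j, Good w v (S j)) ∧ (∀ j, S j ⊆ D) ∧ (∀ j, S (j + 1) ⊆ S j) ∧
      interior (⋂ j, S j) = ∅ := by
  have hstep : ∀ (X : {X : Set (ℝ × ℝ) // Good w v X ∧ X ⊆ D}) (p : ℝ × ℝ),
      ∃ Y : {X : Set (ℝ × ℝ) // Good w v X ∧ X ⊆ D}, Y.1 ⊆ X.1 ∧ p ∉ interior Y.1 := by
    rintro ⟨X, hX, hXD⟩ p
    obtain ⟨Y, hY1, hY2, hY3⟩ := hX.step hw hv p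
    exact ⟨⟨Y, hY2, hY1.trans hXD⟩, hY1, hY3⟩
  choose f hf1 hf2 using hstep
  set q : ℕ → ℝ × ℝ := TopologicalSpace.denseSeq (ℝ × ℝ) with hq
  set T : ℕ → {X : Set (ℝ × ℝ) // Good w v X ∧ X ⊆ D} :=
    fun j => Nat.rec ⟨D, hD, Subset.rfl⟩ (fun k X => f X (q k)) j with hT
  have hTs : ∀ j, T (j + 1) = f (T j) (q j) := fun j => rfl
  refine ⟨fun j => (T j).1, fun j => (T j).2.1, fun j => (T j).2.2, fun j => ?_, ?_⟩
  · exact hf1 (T j) (q j)
  · by_contra hne
    rw [← ne_eq, ← nonempty_iff_ne_empty] at hne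
    obtain ⟨j, hj⟩ := (TopologicalSpace.denseRange_denseSeq (ℝ × ℝ)).exists_mem_open
      isOpen_interior hne
    have h1 : q j ∈ interior (T (j + 1)).1 := interior_mono (iInter_subset _ (j + 1)) hj
    exact hf2 (T j) (q j) h1

end Pool.Agent.Lib.MP_a34d76_pr.Rev
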