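import Mathlib
import Pool.Agent.Lib.MP_a34d76_pr.Quad.BMC

/-! # The marginal of the weight `r ^ (m - 1)` on a planar convex set -/

set_option autoImplicit false

open MeasureTheory Filter Topology Set
open scoped ENNReal

namespace Pool.Agent.Lib.MP_a34d76_pr.Rev

/-- the lifted convex set -/
def lift (k : ℕ) (D : Set (ℝ × ℝ)) : Set (ℝ × (Fin (k + 1) → ℝ)) :=
  {q | (q.1, q.2 0) ∈ D ∧ ∀ i, 0 ≤ q.2 i ∧ q.2 i ≤ q.2 0}

theorem lift_convex (k : ℕ) {D : Set (ℝ × ℝ)} (hD : Convex ℝ D) : Convex ℝ (lift k D) := by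
  rintro x ⟨hx1, hx2⟩ y ⟨hy1, hy2⟩ a b ha hb hab
  refine ⟨?_, fun i => ⟨?_, ?_⟩⟩
  · have := hD hx1 hy1 ha hb hab
    simpa using this
  · have h1 := (hx2 i).1
    have h2 := (hy2 i).1
    simp only [Prod.snd_add, Prod.smul_snd, Pi.add_apply, Pi.smul_apply, smul_eq_mul]
    positivity
  · have h1 := mul_le_mul_of_nonneg_left (hx2 i).2 ha
    have h2 := mul_le_mul_of_nonneg_left (hy2 i).2 hb
    simp only [Prod.snd_add, Prod.smul_snd, Pi.add_apply, Pi.smul_apply, smul_eq_mul]
    linarith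

theorem lift_compact (k : ℕ) {D : Set (ℝ × ℝ)} (hDc : IsCompact D) : IsCompact (lift k D) := by
  obtain ⟨R, hR⟩ := hDc.isBounded.subset_closedBall 0
  have hcl : IsClosed (lift k D) := by
    have h1 : IsClosed {q : ℝ × (Fin (k + 1) → ℝ) | (q.1, q.2 0) ∈ D} :=
      hDc.isClosed.preimage (by fun_prop)
    have h2 : IsClosed {q : ℝ × (Fin (k + 1) → ℝ) | ∀ i, 0 ≤ q.2 i ∧ q.2 i ≤ q.2 0} := by
      have : {q : ℝ × (Fin (k + 1) → ℝ) | ∀ i, 0 ≤ q.2 i ∧ q.2 i ≤ q.2 0} =
          ⋂ i, ({q | 0 ≤ q.2 i} ∩ {q | q.2 i ≤ q.2 0}) := by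
        ext q; simp [forall_and]
      rw [this]
      exact isClosed_iInter fun i => (isClosed_le (by fun_prop) (by fun_prop)).inter
        (isClosed_le (by fun_prop) (by fun_prop))
    exact h1.inter h2
  refine Metric.isCompact_of_isClosed_isBounded hcl ?_
  refine (Metric.isBounded_closedBall (x := (0 : ℝ × (Fin (k + 1) → ℝ))) (r := max R 0)).subset ?_
  rintro q ⟨h1, h2⟩
  have h3 := hR h1
  rw [mem_closedBall_zero_iff] at h3 ⊢
  rw [Prod.norm_def, max_le_iff] at h3 ⊢
  simp only at h3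
  refine ⟨h3.1.trans (le_max_left _ _), ?_⟩
  rw [pi_norm_le_iff_of_nonneg (le_max_right _ _)]
  intro i
  rw [Real.norm_of_nonneg (h2 i).1]
  refine (h2 i).2.trans (le_trans ?_ (h3.2.trans (le_max_left _ _)))
  exact Real.le_norm_self _

/-- volume of the slices of the lifted set -/
theorem lift_slice (k : ℕ) {D : Set (ℝ × ℝ)} (hDc : IsCompact D) (hr : ∀ z ∈ D, 0 ≤ z.2) (t : ℝ) :
    volume {y | (t, y) ∈ lift k D} =
      ∫⁻ s : ℝ, ENNReal.ofReal (D.indicator (fun z => z.2 ^ k) (t, s)) := by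
  have hmD : MeasurableSet D := hDc.isClosed.measurableSet
  have hcl : IsClosed (lift k D) := (lift_compact k hDc).isClosed
  have hm : MeasurableSet {y | (t, y) ∈ lift k D} :=
    (hcl.preimage (by fun_prop : Continuous fun y : Fin (k + 1) → ℝ => (t, y))).measurableSet
  rw [← lintegral_indicator_one hm, Quad.PL.lintegral_succ (measurable_one.indicator hm)]
  apply lintegral_congr
  intro s
  by_cases hs : (t, s) ∈ D
  · have hs0 : 0 ≤ s := hr _ hs
    rw [indicator_of_mem hs]
    have e : (fun y : Fin k → ℝ => ({y | (t, y) ∈ lift k D} : Set (Fin (k + 1) → ℝ)).indicator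
        (1 : (Fin (k + 1) → ℝ) → ℝ≥0∞) (Fin.cons s y)) =
        (Set.pi univ fun _ : Fin k => Icc (0 : ℝ) s).indicator 1 := by
      funext y
      by_cases hy : y ∈ Set.pi univ fun _ : Fin k => Icc (0 : ℝ) s
      · rw [indicator_of_mem hy, indicator_of_mem]
        · rfl
        · refine ⟨by simpa using hs, fun i => ?_⟩
          refine Fin.cases ?_ (fun j => ?_) i
          · simpa using hs0
          · simpa using hy j (mem_univ _)
      · rw [indicator_of_notMem hy, indicator_of_notMem]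
        intro h
        apply hy
        intro j _
        have := h.2 j.succ
        simpa using this
    rw [e, lintegral_indicator_one (MeasurableSet.univ_pi fun _ => measurableSet_Icc), volume_pi_pi]
    simp only [Real.volume_Icc, sub_zero, Finset.prod_const, Finset.card_univ, Fintype.card_fin]
    rw [ENNReal.ofReal_pow hs0]
  · rw [indicator_of_notMem hs, ENNReal.ofReal_zero]
    have e : (fun y : Fin k → ℝ => ({y | (t, y) ∈ lift k D} : Set (Fin (k + 1) → ℝ)).indicator
        (1 : (Fin (k + 1) → ℝ) → ℝ≥0∞) (Fin.cons s y)) = fun _ => 0 := by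
      funext y
      rw [indicator_of_notMem]
      intro h
      exact hs (by simpa using h.1)
    rw [e, lintegral_zero]

/-- Fubini for functions of the first coordinate. -/
theorem fubini_fst {k : ℕ} {D : Set (ℝ × ℝ)} (hDc : IsCompact D) {h : ℝ → ℝ} (hh : Continuous h) :
    ∫ z in D, h z.1 * z.2 ^ k = ∫ t, h t * ∫ s, D.indicator (fun z => z.2 ^ k) (t, s) := by
  have hmD : MeasurableSet D := hDc.isClosed.measurableSet
  have hi : Integrable (D.indicator fun z : ℝ × ℝ => h z.1 * z.2 ^ k) := by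
    rw [integrable_indicator_iff hmD]
    exact (by fun_prop : Continuous fun z : ℝ × ℝ =>
      h z.1 * z.2 ^ k).continuousOn.integrableOn_compact hDc
  rw [← integral_indicator hmD, Measure.volume_eq_prod, integral_prod _ hi]
  apply integral_congr_ae
  refine Eventually.of_forall fun t => ?_
  simp only
  rw [← integral_const_mul]
  apply integral_congr_ae
  refine Eventually.of_forall fun s => ?_
  by_cases hs : (t, s) ∈ D
  · simp [indicator_of_mem hs]
  · simp [indicator_of_notMem hs]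

theorem marginal {m : ℕ} (hm : 1 ≤ m) {D : Set (ℝ × ℝ)} (hD : Convex ℝ D) (hDc : IsCompact D)
    (hr : ∀ z ∈ D, 0 ≤ z.2) (hpos : 0 < ∫ z in D, z.2 ^ (m - 1)) :
    ∃ (A B : ℝ) (φ : ℝ → ℝ), A < B ∧ Prod.fst '' D = Icc A B ∧ Continuous φ ∧
      (∀ t, 0 ≤ φ t) ∧ ConcaveOn ℝ (Icc A B) φ ∧
      ∀ h : ℝ → ℝ, Continuous h →
        ∫ z in D, h z.1 * z.2 ^ (m - 1) = ∫ t in A..B, h t * φ t ^ m := by
  obtain ⟨k, rfl⟩ : ∃ k, m = k + 1 := ⟨m - 1, by omega⟩
  simp only [Nat.add_sub_cancel] at hpos ⊢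
  set σ : ℝ → ℝ := fun t => ∫ s, D.indicator (fun z => z.2 ^ k) (t, s) with hσ
  have hσv : ∀ t, (volume {y | (t, y) ∈ lift k D}).toReal = σ t := by
    intro t
    rw [lift_slice k hDc hr, hσ]
    simp only
    rw [integral_eq_lintegral_of_nonneg_ae]
    · refine Eventually.of_forall fun s => ?_
      exact indicator_nonneg (fun z hz => pow_nonneg (hr z hz) k) _
    · exact (((by fun_prop : Continuous fun z : ℝ × ℝ => z.2 ^ k).measurable.indicator
        hDc.isClosed.measurableSet).comp (by fun_prop : Measurable fun s : ℝ => (t, s))).aestronglyMeasurable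
  have hσ0 : ∀ t, 0 ≤ σ t := fun t => by rw [← hσv]; exact ENNReal.toReal_nonneg
  have hvol : volume (lift k D) ≠ 0 := by
    intro h0
    have hcm : MeasurableSet (lift k D) := (lift_compact k hDc).isClosed.measurableSet
    rw [Measure.volume_eq_prod, Measure.measure_prod_null hcm] at h0
    have h1 := fubini_fst (k := k) hDc (h := fun _ => 1) continuous_const
    have h2 : ∫ t, (1 : ℝ) * ∫ s, D.indicator (fun z => z.2 ^ k) (t, s) = 0 := by
      apply integral_eq_zero_of_ae
      filter_upwards [h0] with t ht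
      have h3 : σ t = 0 := by
        rw [← hσv]
        have : volume {y | (t, y) ∈ lift k D} = 0 := ht
        rw [this]; simp
      simp only [one_mul, Pi.zero_apply]
      exact h3
    rw [h2] at h1
    simp only [one_mul] at h1
    linarith
  obtain ⟨A, B, hAB, himg, hcont, hconc⟩ := Quad.bmc (m := k + 1) (by omega) (lift_convex k hD)
    (lift_compact k hDc) hvol
  have himg' : Prod.fst '' D = Icc A B := by
    rw [← himg]
    ext t
    constructor
    · rintro ⟨⟨t', s⟩, hz, rfl⟩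
      exact ⟨(t', fun _ => s), ⟨hz, fun i => ⟨hr _ hz, le_rfl⟩⟩, rfl⟩
    · rintro ⟨⟨t', y⟩, hz, rfl⟩
      exact ⟨_, hz.1, rfl⟩
  set φ₀ : ℝ → ℝ := fun t => (volume {y | (t, y) ∈ lift k D}).toReal ^ ((1 : ℝ) / ((k + 1 : ℕ) : ℝ))
    with hφ₀
  set φ : ℝ → ℝ := IccExtend hAB.le ((Icc A B).domRestrict φ₀) with hφ
  have hφc : Continuous φ := (continuousOn_iff_continuous_domRestrict.1 hcont).Icc_extend'
  have hφe : ∀ x ∈ Icc A B, φ x = φ₀ x := fun x hx => by rw [hφ, IccExtend_of_mem _ _ hx]; rfl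
  have hφ0 : ∀ x, 0 ≤ φ x := by
    intro x
    rw [hφ, IccExtend, Function.comp]
    exact Real.rpow_nonneg ENNReal.toReal_nonneg _
  have hpow : ∀ x ∈ Icc A B, φ x ^ (k + 1) = σ x := by
    intro x hx
    rw [hφe x hx, hφ₀, ← hσv]
    exact Quad.BMC.root_pow (by omega) ENNReal.toReal_nonneg
  refine ⟨A, B, φ, hAB, himg', hφc, hφ0, ?_, ?_⟩
  · refine ⟨convex_Icc A B, fun x hx y hy a b ha hb hab => ?_⟩
    rw [hφe x hx, hφe y hy, hφe _ (convex_Icc A B hx hy ha hb hab)]
    exact hconc.2 hx hy ha hb hab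
  · intro h hh
    rw [fubini_fst hDc hh, intervalIntegral.integral_of_le hAB.le, ← integral_Icc_eq_integral_Ioc,
      ← integral_indicator measurableSet_Icc]
    apply integral_congr_ae
    refine Eventually.of_forall fun t => ?_
    simp only
    by_cases ht : t ∈ Icc A B
    · rw [indicator_of_mem ht, hpow t ht]
    · rw [indicator_of_notMem ht]
      have h3 : ∀ s, D.indicator (fun z : ℝ × ℝ => z.2 ^ k) (t, s) = 0 := by
        intro s
        apply indicator_of_notMem
        intro hs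
        apply ht
        rw [← himg']
        exact ⟨_, hs, rfl⟩
      simp [h3]

end Pool.Agent.Lib.MP_a34d76_pr.Rev
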