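import Mathlib

/-! # Centroid inequality for planar convex sets in a half plane, weight `r ^ (m - 1)` -/

set_option autoImplicit false

open MeasureTheory Filter Topology Set

namespace Pool.Agent.Lib.MP_a34d76_pr.Rev

theorem pow_lower (m : ℕ) {b δ : ℝ} (hb : 0 ≤ b) (hδ : 0 ≤ δ) :
    b ^ m + m * b ^ (m - 1) * δ ≤ (b + δ) ^ m := by
  induction m with
  | zero => simp
  | succ k ih =>
    rcases Nat.eq_zero_or_pos k with rfl | hk
    · simp
    · have e : k + 1 - 1 = (k - 1) + 1 := by omega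
      have e2 : k = (k - 1) + 1 := by omega
      have h1 : (b ^ k + k * b ^ (k - 1) * δ) * (b + δ) ≤ (b + δ) ^ k * (b + δ) :=
        mul_le_mul_of_nonneg_right ih (by linarith)
      have h2 : b ^ (k + 1) + ((k + 1 : ℕ) : ℝ) * b ^ (k + 1 - 1) * δ ≤
          (b ^ k + k * b ^ (k - 1) * δ) * (b + δ) := by
        have e3 : b ^ k = b ^ (k - 1) * b := by
          conv_lhs => rw [e2, pow_succ]
        rw [show k + 1 - 1 = k by omega, pow_succ, e3]
        push_cast
        have : 0 ≤ (k : ℝ) * b ^ (k - 1) * δ * δ := by positivity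
        nlinarith
      rw [pow_succ (b + δ)]
      exact h2.trans h1

/-- Integrals over a homothetic copy inside `D`. -/
theorem homothety_le {D : Set (ℝ × ℝ)} (hD : Convex ℝ D) (hDc : IsCompact D) {P : ℝ × ℝ}
    (hP : P ∈ D) {f : ℝ × ℝ → ℝ} (hf : Continuous f) (hf0 : ∀ z ∈ D, 0 ≤ f z) {s : ℝ}
    (hs0 : 0 < s) (hs1 : s ≤ 1) :
    s ^ 2 * ∫ z in D, f (s • z + (1 - s) • P) ≤ ∫ z in D, f z := by
  have hm : MeasurableSet D := hDc.isClosed.measurableSet
  set T : ℝ × ℝ → ℝ × ℝ := fun z => s • z + (1 - s) • P with hT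
  have hTD : ∀ z ∈ D, T z ∈ D := fun z hz => hD hz hP hs0.le (by linarith) (by ring)
  have e1 : ∫ z in D, f (T z) = ∫ z, (T '' D).indicator f (T z) := by
    rw [← integral_indicator hm]
    congr 1
    ext z
    have hinj : Function.Injective T := by
      intro a b hab
      have h1 : s • a = s • b := add_right_cancel hab
      exact smul_right_injective _ hs0.ne' h1
    by_cases hz : z ∈ D
    · rw [indicator_of_mem hz, indicator_of_mem (mem_image_of_mem T hz)]
    · rw [indicator_of_notMem hz, indicator_of_notMem]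
      rintro ⟨w, hw, hw2⟩
      exact hz (hinj hw2 ▸ hw)
  have e2 : ∫ z, (T '' D).indicator f (T z) = (s ^ 2)⁻¹ * ∫ z, (T '' D).indicator f z := by
    have h1 := Measure.integral_comp_smul (volume : Measure (ℝ × ℝ))
      (fun z => (T '' D).indicator f (z + (1 - s) • P)) s
    have h2 := integral_add_right_eq_self (μ := (volume : Measure (ℝ × ℝ)))
      ((T '' D).indicator f) ((1 - s) • P)
    rw [h2] at h1
    rw [hT]
    simp only at h1 ⊢
    rw [h1]
    simp only [Module.finrank_prod, Module.finrank_self, smul_eq_mul]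
    rw [abs_of_pos (by positivity)]
  have hTc : IsCompact (T '' D) := hDc.image (by fun_prop)
  have hTm : MeasurableSet (T '' D) := hTc.isClosed.measurableSet
  have e3 : ∫ z, (T '' D).indicator f z ≤ ∫ z in D, f z := by
    rw [integral_indicator hTm]
    apply setIntegral_mono_set (hf.continuousOn.integrableOn_compact hDc)
    · filter_upwards [ae_restrict_mem hm] with z hz using hf0 z hz
    · apply Eventually.of_forall
      rintro z ⟨w, hw, rfl⟩
      exact hTD w hw
  rw [e1, e2, ← mul_assoc, mul_inv_cancel₀ (by positivity), one_mul]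
  exact e3

/-- In a compact convex subset of the half plane `r ≥ 0` the mean of `r` for the weight
`r ^ (m - 1)` is at least `m / (m + 2)` times the maximum of `r`. -/
theorem ratio {D : Set (ℝ × ℝ)} (hD : Convex ℝ D) (hDc : IsCompact D) {m : ℕ} (hm : 1 ≤ m)
    (hr : ∀ z ∈ D, 0 ≤ z.2) {P : ℝ × ℝ} (hP : P ∈ D) (hPm : ∀ z ∈ D, z.2 ≤ P.2) :
    m * P.2 * ∫ z in D, z.2 ^ (m - 1) ≤ (m + 2) * ∫ z in D, z.2 ^ m := by
  have hmD : MeasurableSet D := hDc.isClosed.measurableSet
  have i1 : IntegrableOn (fun z : ℝ × ℝ => z.2 ^ m) D :=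
    (by fun_prop : Continuous fun z : ℝ × ℝ => z.2 ^ m).continuousOn.integrableOn_compact hDc
  have i2 : IntegrableOn (fun z : ℝ × ℝ => (P.2 - z.2) * z.2 ^ (m - 1)) D :=
    (by fun_prop : Continuous fun z : ℝ × ℝ =>
      (P.2 - z.2) * z.2 ^ (m - 1)).continuousOn.integrableOn_compact hDc
  have i3 : IntegrableOn (fun z : ℝ × ℝ => z.2 ^ (m - 1)) D :=
    (by fun_prop : Continuous fun z : ℝ × ℝ =>
      z.2 ^ (m - 1)).continuousOn.integrableOn_compact hDc
  set I := ∫ z in D, z.2 ^ m with hI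
  set J := ∫ z in D, (P.2 - z.2) * z.2 ^ (m - 1) with hJ
  have hJe : J = P.2 * (∫ z in D, z.2 ^ (m - 1)) - I := by
    rw [hJ, hI, ← integral_const_mul, ← integral_sub (i3.const_mul _) i1]
    apply setIntegral_congr_fun hmD
    intro z hz
    have : z.2 ^ m = z.2 * z.2 ^ (m - 1) := by
      conv_lhs => rw [show m = (m - 1) + 1 by omega, pow_succ, mul_comm]
    simp only
    rw [this]
    ring
  have hI0 : 0 ≤ I := setIntegral_nonneg hmD fun z hz => pow_nonneg (hr z hz) _
  have key : ∀ s : ℝ, 0 < s → s < 1 → s ^ 2 * (m * J) ≤ (1 + s) * I := by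
    intro s hs0 hs1
    have h1 := homothety_le hD hDc hP (f := fun z => z.2 ^ m) (by fun_prop)
      (fun z hz => pow_nonneg (hr z hz) _) hs0 hs1.le
    have h2 : I + (m * (1 - s)) * J ≤ ∫ z in D, (s • z + (1 - s) • P).2 ^ m := by
      rw [hI, hJ, ← integral_const_mul, ← integral_add i1 (i2.const_mul _)]
      apply setIntegral_mono_on (i1.add (i2.const_mul _)) _ hmD
      · intro z hz
        have h3 := pow_lower m (hr z hz) (δ := (1 - s) * (P.2 - z.2))
          (mul_nonneg (by linarith) (by linarith [hPm z hz]))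
        have e : (s • z + (1 - s) • P).2 = z.2 + (1 - s) * (P.2 - z.2) := by
          simp only [Prod.snd_add, Prod.smul_snd, smul_eq_mul]
          ring
        rw [e]
        calc z.2 ^ m + ↑m * (1 - s) * ((P.2 - z.2) * z.2 ^ (m - 1))
            = z.2 ^ m + ↑m * z.2 ^ (m - 1) * ((1 - s) * (P.2 - z.2)) := by ring
          _ ≤ _ := h3
      · exact (by fun_prop : Continuous fun z : ℝ × ℝ =>
          (s • z + (1 - s) • P).2 ^ m).continuousOn.integrableOn_compact hDc
    have h3 : s ^ 2 * (I + (m * (1 - s)) * J) ≤ I :=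
      (mul_le_mul_of_nonneg_left h2 (by positivity)).trans h1
    have h4 : (1 - s) * (s ^ 2 * (m * J)) ≤ (1 - s) * ((1 + s) * I) := by nlinarith
    exact le_of_mul_le_mul_left h4 (by linarith)
  have hlim : m * J ≤ 2 * I := by
    have t1 : Tendsto (fun s : ℝ => s ^ 2 * (m * J)) (𝓝[<] 1) (𝓝 (m * J)) := by
      have : Tendsto (fun s : ℝ => s ^ 2 * (m * J)) (𝓝 1) (𝓝 ((1:ℝ) ^ 2 * (m * J))) :=
        (by fun_prop : Continuous fun s : ℝ => s ^ 2 * (m * J)).tendsto 1
      simpa using this.mono_left nhdsWithin_le_nhds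
    have t2 : Tendsto (fun s : ℝ => (1 + s) * I) (𝓝[<] 1) (𝓝 (2 * I)) := by
      have : Tendsto (fun s : ℝ => (1 + s) * I) (𝓝 1) (𝓝 ((1 + 1) * I)) :=
        (by fun_prop : Continuous fun s : ℝ => (1 + s) * I).tendsto 1
      rw [show (1 + 1 : ℝ) = 2 by norm_num] at this
      exact this.mono_left nhdsWithin_le_nhds
    refine le_of_tendsto_of_tendsto t1 t2 ?_
    have : Ioo (0 : ℝ) 1 ∈ 𝓝[<] (1 : ℝ) := Ioo_mem_nhdsLT (by norm_num)
    filter_upwards [this] with s hs using key s hs.1 hs.2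
  rw [hJe] at hlim
  nlinarith

end Pool.Agent.Lib.MP_a34d76_pr.Rev
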