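import Mathlib
import Pool.Agent.Lib.MP_a34d76_pr.OneDimDual
import Pool.Agent.Lib.MP_a34d76_pr.Rev.Ratio
import Pool.Agent.Lib.MP_a34d76_pr.Rev.Bisect
import Pool.Agent.Lib.MP_a34d76_pr.Rev.Marginal

/-! # The planar inequality obtained by localisation -/

set_option autoImplicit false

open MeasureTheory Filter Topology Set

namespace Pool.Agent.Lib.MP_a34d76_pr.Rev

/-- Approximately admissible tuples have approximately nonnegative sums. -/
theorem tolerance {n : ℕ} {D : Set (ℝ × ℝ)} (hDc : IsCompact D) {F : ℝ × ℝ → ℝ}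
    (hF : Continuous F)
    (hfeas : ∀ z : Fin n → ℝ × ℝ, (∀ i, z i ∈ D) → ∑ i, (z i).1 = 0 →
      (∀ j, 2 * (z j).2 ≤ ∑ i, (z i).2) → 0 ≤ ∑ i, F (z i)) {ε : ℝ} (hε : 0 < ε) :
    ∃ δ > 0, ∀ z z' : Fin n → ℝ × ℝ, (∀ i, z' i ∈ D) → (∀ i, dist (z i) (z' i) ≤ δ) →
      |∑ i, (z i).1| ≤ δ → (∀ j, 2 * (z j).2 ≤ ∑ i, (z i).2 + δ) → -ε ≤ ∑ i, F (z i) := by
  by_contra hcon
  push Not at hcon
  have hk : ∀ k : ℕ, (0 : ℝ) < 1 / ((k : ℝ) + 1) := fun k => Nat.one_div_pos_of_nat
  choose z z' h1 h2 h3 h4 h5 using fun k : ℕ => hcon (1 / ((k : ℝ) + 1)) (hk k)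
  have hcomp : IsCompact (Set.pi univ fun _ : Fin n => D) := isCompact_univ_pi fun _ => hDc
  obtain ⟨a, ha, φ, hφ, hlim⟩ := hcomp.tendsto_subseq (x := z') (fun k i _ => h1 k i)
  have ht0 : Tendsto (fun k : ℕ => (1 : ℝ) / ((k : ℝ) + 1)) atTop (𝓝 0) :=
    tendsto_one_div_add_atTop_nhds_zero_nat
  have ht : Tendsto (fun k : ℕ => (1 : ℝ) / ((φ k : ℝ) + 1)) atTop (𝓝 0) :=
    ht0.comp hφ.tendsto_atTop
  have hlim' : ∀ i, Tendsto (fun k => z' (φ k) i) atTop (𝓝 (a i)) := fun i =>
    (tendsto_pi_nhds.1 hlim) i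
  have hz : ∀ i, Tendsto (fun k => z (φ k) i) atTop (𝓝 (a i)) := by
    intro i
    have h6 : Tendsto (fun k => dist (z' (φ k) i) (z (φ k) i)) atTop (𝓝 0) := by
      refine squeeze_zero (fun k => dist_nonneg) (fun k => ?_) ht
      rw [dist_comm]
      exact h2 (φ k) i
    exact (tendsto_iff_of_dist h6).1 (hlim' i)
  have hs1 : Tendsto (fun k => ∑ i, (z (φ k) i).1) atTop (𝓝 (∑ i, (a i).1)) :=
    tendsto_finsetSum _ fun i _ => (continuous_fst.tendsto _).comp (hz i)
  have hs2 : Tendsto (fun k => ∑ i, (z (φ k) i).2) atTop (𝓝 (∑ i, (a i).2)) :=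
    tendsto_finsetSum _ fun i _ => (continuous_snd.tendsto _).comp (hz i)
  have hs3 : Tendsto (fun k => ∑ i, F (z (φ k) i)) atTop (𝓝 (∑ i, F (a i))) :=
    tendsto_finsetSum _ fun i _ => (hF.tendsto _).comp (hz i)
  have e1 : ∑ i, (a i).1 = 0 := by
    have h6 : Tendsto (fun k => |∑ i, (z (φ k) i).1|) atTop (𝓝 0) :=
      squeeze_zero (fun k => abs_nonneg _) (fun k => h3 (φ k)) ht
    have h7 := tendsto_nhds_unique hs1.abs h6
    exact abs_eq_zero.1 h7
  have e2 : ∀ j, 2 * (a j).2 ≤ ∑ i, (a i).2 := by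
    intro j
    have h6 : Tendsto (fun k => 2 * (z (φ k) j).2) atTop (𝓝 (2 * (a j).2)) :=
      ((continuous_snd.tendsto _).comp (hz j)).const_mul 2
    have h7 : Tendsto (fun k => ∑ i, (z (φ k) i).2 + 1 / ((φ k : ℝ) + 1)) atTop
        (𝓝 (∑ i, (a i).2 + 0)) := hs2.add ht
    rw [add_zero] at h7
    exact le_of_tendsto_of_tendsto' h6 h7 fun k => h4 (φ k) j
  have e3 : ∑ i, F (a i) ≤ -ε := le_of_tendsto' hs3 fun k => (h5 (φ k)).le
  have e4 := hfeas a (fun i => ha i (mem_univ _)) e1 e2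
  linarith

/-- A convex planar set with empty interior lies on a line. -/
theorem on_line {S : Set (ℝ × ℝ)} (hS : Convex ℝ S) (hne : S.Nonempty) (hi : interior S = ∅) :
    ∃ a b c : ℝ, (a ≠ 0 ∨ b ≠ 0) ∧ ∀ z ∈ S, a * z.1 + b * z.2 = c := by
  obtain ⟨z₀, hz₀⟩ := hne
  have h1 : affineSpan ℝ S ≠ ⊤ := by
    intro h
    rw [← hS.interior_nonempty_iff_affineSpan_eq_top, hi] at h
    exact not_nonempty_empty h
  have hz₀' : z₀ ∈ affineSpan ℝ S := mem_affineSpan ℝ hz₀
  have h2 : (affineSpan ℝ S).direction ≠ ⊤ := by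
    intro h
    exact h1 ((AffineSubspace.direction_eq_top_iff_of_nonempty ⟨z₀, hz₀'⟩).1 h)
  obtain ⟨f, hf0, hf⟩ := Submodule.exists_le_ker_of_lt_top _ (lt_top_iff_ne_top.2 h2)
  have hfe : ∀ z : ℝ × ℝ, f z = f (1, 0) * z.1 + f (0, 1) * z.2 := by
    intro z
    have e : z = z.1 • ((1, 0) : ℝ × ℝ) + z.2 • ((0, 1) : ℝ × ℝ) := by
      ext <;> simp
    conv_lhs => rw [e]
    rw [map_add, map_smul, map_smul, smul_eq_mul, smul_eq_mul]
    ring
  refine ⟨f (1, 0), f (0, 1), f z₀, ?_, fun z hz => ?_⟩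
  · by_contra hcon
    push Not at hcon
    apply hf0
    ext
    · simp [hcon.1]
    · simp [hcon.2]
  · have h3 : z -ᵥ z₀ ∈ (affineSpan ℝ S).direction :=
      AffineSubspace.vsub_mem_direction (mem_affineSpan ℝ hz) hz₀'
    have h4 := hf h3
    rw [LinearMap.mem_ker, vsub_eq_sub, map_sub] at h4
    rw [← hfe]
    linarith

theorem setIntegral_pos_of_interior {S : Set (ℝ × ℝ)} (hSc : IsCompact S)
    (hi : (interior S).Nonempty) {f : ℝ × ℝ → ℝ} (hf : Continuous f) (h0 : ∀ z ∈ S, 0 ≤ f z)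
    (h1 : ∀ z ∈ interior S, f z ≠ 0) : 0 < ∫ z in S, f z := by
  have hm : MeasurableSet S := hSc.isClosed.measurableSet
  rw [setIntegral_pos_iff_support_of_nonneg_ae]
  · have h2 : interior S ⊆ Function.support f ∩ S := fun z hz => ⟨h1 z hz, interior_subset hz⟩
    exact lt_of_lt_of_le (isOpen_interior.measure_pos volume hi) (measure_mono h2)
  · filter_upwards [ae_restrict_mem hm] with z hz using h0 z hz
  · exact hf.continuousOn.integrableOn_compact hSc

theorem interior_pos_snd {S : Set (ℝ × ℝ)} (h : ∀ z ∈ S, 0 ≤ z.2) : ∀ z ∈ interior S, 0 < z.2 := by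
  have h1 : interior S ⊆ interior ((univ : Set ℝ) ×ˢ Ici (0 : ℝ)) :=
    interior_mono fun z hz => ⟨mem_univ _, h z hz⟩
  rw [interior_prod_eq, interior_univ, interior_Ici] at h1
  exact fun z hz => (h1 hz).2

theorem interior_pos_fst {S : Set (ℝ × ℝ)} (h : ∀ z ∈ S, 0 ≤ z.1) : ∀ z ∈ interior S, 0 < z.1 := by
  have h1 : interior S ⊆ interior (Ici (0 : ℝ) ×ˢ (univ : Set ℝ)) :=
    interior_mono fun z hz => ⟨h z hz, mem_univ _⟩
  rw [interior_prod_eq, interior_univ, interior_Ici] at h1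
  exact fun z hz => (h1 hz).1

theorem interior_neg_fst {S : Set (ℝ × ℝ)} (h : ∀ z ∈ S, z.1 ≤ 0) : ∀ z ∈ interior S, z.1 < 0 := by
  have h1 : interior S ⊆ interior (Iic (0 : ℝ) ×ˢ (univ : Set ℝ)) :=
    interior_mono fun z hz => ⟨h z hz, mem_univ _⟩
  rw [interior_prod_eq, interior_univ, interior_Iic] at h1
  exact fun z hz => (h1 hz).1

/-- modulus of continuity near a compact set -/
theorem modulus {D : Set (ℝ × ℝ)} (hDc : IsCompact D) {F : ℝ × ℝ → ℝ} (hF : Continuous F) {ε : ℝ}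
    (hε : 0 < ε) : ∃ δ > 0, ∀ z ∈ D, ∀ z', dist z z' < δ → |F z - F z'| < ε := by
  have h1 := hDc.uniformContinuousAt_of_continuousAt F (fun a _ => hF.continuousAt)
    (Metric.dist_mem_uniformity hε)
  obtain ⟨δ, hδ, h2⟩ := Metric.mem_uniformity_dist.1 h1
  exact ⟨δ, hδ, fun z hz z' hzz => h2 hzz hz⟩

/-- The one-dimensional step: a set `S` close to the line `r = α + β y`. -/
theorem needle {m n : ℕ} (hm : 2 ≤ m) (hn : m + 2 ≤ n) {S : Set (ℝ × ℝ)} (hS : Convex ℝ S)
    (hSc : IsCompact S) (hSi : (interior S).Nonempty) (hr : ∀ z ∈ S, 0 ≤ z.2)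
    (hcen : ∫ z in S, z.1 * z.2 ^ (m - 1) = 0) {α β ε₀ : ℝ} (hε₀ : 0 ≤ ε₀)
    (hline : ∀ z ∈ S, |z.2 - α - β * z.1| ≤ ε₀) {G : ℝ → ℝ} (hG : Continuous G)
    (hfeas : ∀ x : Fin n → ℝ, (∀ i, ∃ r, (x i, r) ∈ S) → ∑ i, x i = 0 →
      (∀ j, 2 * (α + β * x j) ≤ n * α + (n + 2) * ε₀) → 0 ≤ ∑ i, G (x i)) :
    0 ≤ ∫ z in S, G z.1 * z.2 ^ (m - 1) := by
  have hmS : MeasurableSet S := hSc.isClosed.measurableSet
  have hsnd := interior_pos_snd hr
  have hM : 0 < ∫ z in S, z.2 ^ (m - 1) :=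
    setIntegral_pos_of_interior hSc hSi (by fun_prop) (fun z hz => pow_nonneg (hr z hz) _)
      fun z hz => (pow_pos (hsnd z hz) _).ne'
  set M := ∫ z in S, z.2 ^ (m - 1) with hMdef
  obtain ⟨A, B, φ, hAB, himg, hφc, hφ0, hφconc, hφ⟩ := marginal (by omega : 1 ≤ m) hS hSc hr hM
  have hne : S.Nonempty := hSi.mono interior_subset
  -- the interval contains zero in its interior
  have hA : A < 0 := by
    by_contra hA
    push Not at hA
    have h1 : ∀ z ∈ S, 0 ≤ z.1 := by
      intro z hz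
      have : z.1 ∈ Icc A B := himg ▸ mem_image_of_mem _ hz
      linarith [this.1]
    have h2 : 0 < ∫ z in S, z.1 * z.2 ^ (m - 1) :=
      setIntegral_pos_of_interior hSc hSi (by fun_prop)
        (fun z hz => mul_nonneg (h1 z hz) (pow_nonneg (hr z hz) _))
        fun z hz => (mul_pos (interior_pos_fst h1 z hz) (pow_pos (hsnd z hz) _)).ne'
    linarith
  have hB : 0 < B := by
    by_contra hB
    push Not at hB
    have h1 : ∀ z ∈ S, z.1 ≤ 0 := by
      intro z hz
      have : z.1 ∈ Icc A B := himg ▸ mem_image_of_mem _ hz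
      linarith [this.2]
    have h2 : 0 < ∫ z in S, -(z.1 * z.2 ^ (m - 1)) :=
      setIntegral_pos_of_interior hSc hSi (by fun_prop)
        (fun z hz => by
          have := mul_nonneg (neg_nonneg.2 (h1 z hz)) (pow_nonneg (hr z hz) (m - 1))
          linarith)
        fun z hz => by
          have := mul_pos (neg_pos.2 (interior_neg_fst h1 z hz)) (pow_pos (hsnd z hz) (m - 1))
          intro h
          linarith
    rw [integral_neg] at h2
    linarith
  -- mean of `r`
  have i0 : IntegrableOn (fun z : ℝ × ℝ => z.2 ^ (m - 1)) S :=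
    (by fun_prop : Continuous fun z : ℝ × ℝ => z.2 ^ (m - 1)).continuousOn.integrableOn_compact hSc
  have i1 : IntegrableOn (fun z : ℝ × ℝ => z.2 ^ m) S :=
    (by fun_prop : Continuous fun z : ℝ × ℝ => z.2 ^ m).continuousOn.integrableOn_compact hSc
  have i2 : IntegrableOn (fun z : ℝ × ℝ => z.1 * z.2 ^ (m - 1)) S :=
    (by fun_prop : Continuous fun z : ℝ × ℝ =>
      z.1 * z.2 ^ (m - 1)).continuousOn.integrableOn_compact hSc
  set M1 := ∫ z in S, z.2 ^ m with hM1
  have hM1le : M1 ≤ (α + ε₀) * M := by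
    have h1 : ∫ z in S, z.2 ^ m ≤
        ∫ z in S, ((α + ε₀) * z.2 ^ (m - 1) + β * (z.1 * z.2 ^ (m - 1))) := by
      apply setIntegral_mono_on i1 ((i0.const_mul _).add (i2.const_mul _)) hmS
      intro z hz
      have h2 : z.2 ≤ α + ε₀ + β * z.1 := by
        have := (abs_le.1 (hline z hz)).2
        linarith
      have h3 : z.2 ^ m = z.2 * z.2 ^ (m - 1) := by
        conv_lhs => rw [show m = (m - 1) + 1 by omega, pow_succ, mul_comm]
      have h4 := mul_le_mul_of_nonneg_right h2 (pow_nonneg (hr z hz) (m - 1))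
      rw [h3, Pi.add_apply]
      linarith
    rw [integral_add (i0.const_mul _) (i2.const_mul _), integral_const_mul, integral_const_mul,
      hcen, mul_zero, add_zero] at h1
    exact h1
  have hM10 : 0 ≤ M1 := setIntegral_nonneg hmS fun z hz => pow_nonneg (hr z hz) _
  have hαε : 0 ≤ α + ε₀ := by
    by_contra h
    push Not at h
    have := mul_neg_of_neg_of_pos h hM
    linarith
  obtain ⟨P, hP, hPm⟩ := hSc.exists_isMaxOn hne continuous_snd.continuousOn
  have hPm' : ∀ z ∈ S, z.2 ≤ P.2 := fun z hz => hPm hz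
  have hratio := ratio hS hSc (by omega : 1 ≤ m) hr hP hPm'
  have hm2 : (2 : ℝ) ≤ m := by exact_mod_cast hm
  have hn2 : (m : ℝ) + 2 ≤ n := by exact_mod_cast hn
  have hP2 : m * P.2 ≤ (m + 2) * (α + ε₀) := by
    have h1 : (m * P.2) * M ≤ ((m + 2) * (α + ε₀)) * M := by
      calc (m * P.2) * M ≤ (m + 2) * M1 := hratio
        _ ≤ (m + 2) * ((α + ε₀) * M) := by gcongr
        _ = _ := by ring
    exact le_of_mul_le_mul_right h1 hM
  have hP3 : 2 * P.2 ≤ n * (α + ε₀) := by
    have h1 : (m : ℝ) * (2 * P.2) ≤ m * (n * (α + ε₀)) := by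
      calc (m : ℝ) * (2 * P.2) = 2 * (m * P.2) := by ring
        _ ≤ 2 * ((m + 2) * (α + ε₀)) := by gcongr
        _ = (2 * (m + 2)) * (α + ε₀) := by ring
        _ ≤ (m * n) * (α + ε₀) := by
          apply mul_le_mul_of_nonneg_right _ hαε
          nlinarith
        _ = _ := by ring
    exact le_of_mul_le_mul_left h1 (by linarith)
  -- the one-dimensional theorem
  obtain ⟨N, rfl⟩ : ∃ N, n = N + 2 := ⟨n - 2, by omega⟩
  have hN : 1 ≤ N := by omega
  have hN0 : (0 : ℝ) < N := by exact_mod_cast hN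
  set ρ : ℝ := (m : ℝ) / N with hρ
  have hρ0 : 0 ≤ ρ := by positivity
  have hρ1 : ρ ≤ 1 := by
    rw [hρ, div_le_one hN0]
    have : m ≤ N := by omega
    exact_mod_cast this
  have hpow : ∀ x, (φ x ^ ρ) ^ N = φ x ^ m := by
    intro x
    rw [← Real.rpow_natCast, ← Real.rpow_mul (hφ0 x), hρ, div_mul_cancel₀ _ hN0.ne',
      Real.rpow_natCast]
  have hconc' : ConcaveOn ℝ (Icc A B) (fun x => φ x ^ ρ) := by
    refine ⟨hφconc.1, fun x hx y hy a b ha hb hab => ?_⟩
    have h1 := (Real.concaveOn_rpow hρ0 hρ1).2 (Set.mem_Ici.2 (hφ0 x))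
      (Set.mem_Ici.2 (hφ0 y)) ha hb hab
    have h2 := hφconc.2 hx hy ha hb hab
    have h3 : (0 : ℝ) ≤ a • φ x + b • φ y := by
      simp only [smul_eq_mul]
      have := mul_nonneg ha (hφ0 x)
      have := mul_nonneg hb (hφ0 y)
      linarith
    exact h1.trans (Real.rpow_le_rpow h3 h2 hρ0)
  have hres := OneDim.dual hN hA hB (φ := fun x => φ x ^ ρ)
    (hφc.rpow_const fun x => Or.inr hρ0) (fun x => Real.rpow_nonneg (hφ0 x) _) hconc'
    (by
      simp_rw [hpow]
      have := hφ (fun t => t) continuous_id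
      rw [← this]; exact hcen)
    (by
      simp_rw [hpow]
      have := hφ (fun _ => 1) continuous_const
      simp only [one_mul] at this
      rw [← this]; exact hM) hG
    (by
      intro x hx hsum
      have hex : ∀ i, ∃ r, (x i, r) ∈ S := by
        intro i
        have : x i ∈ Prod.fst '' S := himg ▸ hx i
        obtain ⟨z, hz, hz2⟩ := this
        exact ⟨z.2, by rw [← hz2]; exact hz⟩
      refine hfeas x hex hsum fun j => ?_
      obtain ⟨r, hrj⟩ := hex j
      have h1 := (abs_le.1 (hline _ hrj)).1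
      have h2 := hPm' _ hrj
      simp only at h1 h2
      have : 2 * (α + β * x j) ≤ 2 * P.2 + 2 * ε₀ := by linarith
      push_cast at hP3 ⊢
      linarith)
  simp_rw [hpow] at hres
  rw [hφ G hG]
  exact hres

/-- The planar inequality. -/
theorem plane_core {m n : ℕ} (hm : 2 ≤ m) (hn : m + 2 ≤ n) {D : Set (ℝ × ℝ)} (hD : Convex ℝ D)
    (hDc : IsCompact D) (hDi : (interior D).Nonempty) (hr : ∀ z ∈ D, 0 ≤ z.2)
    (hcen : ∫ z in D, z.1 * z.2 ^ (m - 1) = 0) {F : ℝ × ℝ → ℝ} (hF : Continuous F)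
    (hfeas : ∀ z : Fin n → ℝ × ℝ, (∀ i, z i ∈ D) → ∑ i, (z i).1 = 0 →
      (∀ j, 2 * (z j).2 ≤ ∑ i, (z i).2) → 0 ≤ ∑ i, F (z i)) :
    0 ≤ ∫ z in D, F z * z.2 ^ (m - 1) := by
  by_contra hneg
  push Not at hneg
  have hqc : Continuous fun z : ℝ × ℝ => z.2 ^ (m - 1) := by fun_prop
  have hmass : ∀ S : Set (ℝ × ℝ), IsCompact S → (interior S).Nonempty → S ⊆ D →
      0 < ∫ z in S, z.2 ^ (m - 1) := fun S hS hSi hSD =>
    setIntegral_pos_of_interior hS hSi hqc (fun z hz => pow_nonneg (hr z (hSD hz)) _)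
      fun z hz => (pow_pos (interior_pos_snd (fun z hz => hr z (hSD hz)) z hz) _).ne'
  have hM0 := hmass D hDc hDi Subset.rfl
  set M0 := ∫ z in D, z.2 ^ (m - 1) with hM0def
  set W := ∫ z in D, F z * z.2 ^ (m - 1) with hW
  set Λ : ℝ := -W / M0 with hΛ
  have hΛ0 : 0 < Λ := div_pos (by linarith) hM0
  have hn0 : (0 : ℝ) < n := by
    have : 0 < n := by omega
    exact_mod_cast this
  have hn1 : (2 : ℝ) ≤ n := by
    have : 2 ≤ n := by omega
    exact_mod_cast this
  set w : ℝ × ℝ → ℝ := fun z => z.1 * z.2 ^ (m - 1) with hw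
  set v : ℝ × ℝ → ℝ := fun z => F z * z.2 ^ (m - 1) + Λ * z.2 ^ (m - 1) with hv
  have hwc : Continuous w := by fun_prop
  have hvc : Continuous v := by fun_prop
  have hFq : ∀ S : Set (ℝ × ℝ), IsCompact S →
      ∫ z in S, v z = (∫ z in S, F z * z.2 ^ (m - 1)) + Λ * ∫ z in S, z.2 ^ (m - 1) := by
    intro S hS
    have i1 : IntegrableOn (fun z : ℝ × ℝ => F z * z.2 ^ (m - 1)) S :=
      (by fun_prop : Continuous fun z : ℝ × ℝ =>
        F z * z.2 ^ (m - 1)).continuousOn.integrableOn_compact hS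
    have i2 : IntegrableOn (fun z : ℝ × ℝ => z.2 ^ (m - 1)) S :=
      hqc.continuousOn.integrableOn_compact hS
    rw [hv, integral_add i1 (i2.const_mul _), integral_const_mul]
  have hgood : Good w v D := by
    refine ⟨hD, hDc, hDi, hcen, ?_⟩
    rw [hFq D hDc, ← hM0def, ← hW, hΛ, div_mul_cancel₀ _ hM0.ne']
    linarith
  obtain ⟨S, hS1, hS2, hS3, hS4⟩ := exists_sequence hwc hvc hgood
  have hanti : Antitone S := antitone_nat_of_succ_le hS3
  have hdir : Directed (· ⊇ ·) S := directed_of_isDirected_le fun i j hij => hanti hij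
  have hconv : Convex ℝ (⋂ j, S j) := convex_iInter fun j => (hS1 j).convex
  have hne : (⋂ j, S j).Nonempty :=
    IsCompact.nonempty_iInter_of_directed_nonempty_isCompact_isClosed S hdir
      (fun j => (hS1 j).int.mono interior_subset) (fun j => (hS1 j).compact)
      fun j => (hS1 j).compact.isClosed
  obtain ⟨a, b, c, hab, habc⟩ := on_line hconv hne hS4
  have hstrip : ∀ η > 0, ∃ j, ∀ z ∈ S j, |a * z.1 + b * z.2 - c| < η := by
    intro η hη
    have hU : ∀ z ∈ ⋂ j, S j, {z : ℝ × ℝ | |a * z.1 + b * z.2 - c| < η} ∈ 𝓝 z := by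
      intro z hz
      apply IsOpen.mem_nhds (isOpen_lt (by fun_prop) continuous_const)
      show |a * z.1 + b * z.2 - c| < η
      rw [habc z hz, sub_self, abs_zero]
      exact hη
    obtain ⟨j, hj⟩ := exists_subset_nhds_of_isCompact' hdir (fun j => (hS1 j).compact)
      (fun j => (hS1 j).compact.isClosed) hU
    exact ⟨j, fun z hz => hj hz⟩
  by_cases hb : b = 0
  · -- the limit lies in `y = c / a`
    subst hb
    have ha : a ≠ 0 := by simpa using hab
    have ha' : 0 < |a| := abs_pos.2 ha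
    obtain ⟨δ, hδ, htol⟩ := tolerance (n := n) hDc hF hfeas (ε := Λ * n / 2) (by positivity)
    obtain ⟨j, hj⟩ := hstrip (|a| * (δ / (2 * n))) (by positivity)
    set S' := S j with hS'
    have hMj := hmass S' (hS1 j).compact (hS1 j).int (hS2 j)
    have hmS : MeasurableSet S' := (hS1 j).compact.isClosed.measurableSet
    have h1 : ∀ z ∈ S', |z.1 - c / a| ≤ δ / (2 * n) := by
      intro z hz
      have h2 := hj z hz
      have e : a * z.1 + 0 * z.2 - c = a * (z.1 - c / a) := by field_simp; ring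
      rw [e, abs_mul] at h2
      exact (lt_of_mul_lt_mul_left h2 ha'.le).le
    have h2 : |c / a| ≤ δ / (2 * n) := by
      have i2 : IntegrableOn (fun z : ℝ × ℝ => z.2 ^ (m - 1)) S' :=
        hqc.continuousOn.integrableOn_compact (hS1 j).compact
      have i3 : IntegrableOn (fun z : ℝ × ℝ => (z.1 - c / a) * z.2 ^ (m - 1)) S' :=
        (by fun_prop : Continuous fun z : ℝ × ℝ =>
          (z.1 - c / a) * z.2 ^ (m - 1)).continuousOn.integrableOn_compact (hS1 j).compact
      have i4 : IntegrableOn (fun z : ℝ × ℝ => z.1 * z.2 ^ (m - 1)) S' :=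
        hwc.continuousOn.integrableOn_compact (hS1 j).compact
      have e1 : ∫ z in S', (z.1 - c / a) * z.2 ^ (m - 1) =
          -(c / a) * ∫ z in S', z.2 ^ (m - 1) := by
        have e2 : (fun z : ℝ × ℝ => (z.1 - c / a) * z.2 ^ (m - 1)) =
            fun z => z.1 * z.2 ^ (m - 1) - (c / a) * z.2 ^ (m - 1) := by
          funext z; ring
        rw [e2, integral_sub i4 (i2.const_mul _), integral_const_mul]
        have := (hS1 j).hw
        rw [hw] at this
        simp only at this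
        rw [← hS'] at this
        rw [this]
        ring
      have e3 : |∫ z in S', (z.1 - c / a) * z.2 ^ (m - 1)| ≤
          δ / (2 * n) * ∫ z in S', z.2 ^ (m - 1) := by
        rw [← integral_const_mul]
        refine (abs_integral_le_integral_abs).trans ?_
        apply setIntegral_mono_on i3.abs (i2.const_mul _) hmS
        intro z hz
        rw [abs_mul, abs_of_nonneg (pow_nonneg (hr z (hS2 j hz)) _)]
        exact mul_le_mul_of_nonneg_right (h1 z hz) (pow_nonneg (hr z (hS2 j hz)) _)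
      rw [e1, abs_mul, abs_neg, abs_of_pos hMj] at e3
      exact le_of_mul_le_mul_right e3 hMj
    have h3 : ∀ z ∈ S', -(Λ / 2) ≤ F z := by
      intro z hz
      have h4 := htol (fun _ => z) (fun _ => z) (fun _ => hS2 j hz) (fun _ => by simpa using hδ.le)
        (by
          simp only [Finset.sum_const, Finset.card_univ, Fintype.card_fin, nsmul_eq_mul]
          rw [abs_mul, abs_of_pos hn0]
          have h5 : |z.1| ≤ δ / (2 * n) + δ / (2 * n) := by
            calc |z.1| = |(z.1 - c / a) + c / a| := by ring_nf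
              _ ≤ |z.1 - c / a| + |c / a| := abs_add_le _ _
              _ ≤ _ := add_le_add (h1 z hz) h2
          calc (n : ℝ) * |z.1| ≤ n * (δ / (2 * n) + δ / (2 * n)) := by gcongr
            _ = δ := by field_simp; norm_num)
        (fun _ => by
          simp only [Finset.sum_const, Finset.card_univ, Fintype.card_fin, nsmul_eq_mul]
          have := mul_le_mul_of_nonneg_right hn1 (hr z (hS2 j hz))
          linarith)
      simp only [Finset.sum_const, Finset.card_univ, Fintype.card_fin, nsmul_eq_mul] at h4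
      have h5 : (n : ℝ) * (-(Λ / 2)) ≤ n * F z := by linarith
      exact le_of_mul_le_mul_left h5 hn0
    have h4 : -(Λ / 2) * ∫ z in S', z.2 ^ (m - 1) ≤ ∫ z in S', F z * z.2 ^ (m - 1) := by
      rw [← integral_const_mul]
      apply setIntegral_mono_on ((hqc.continuousOn.integrableOn_compact (hS1 j).compact).const_mul _)
        ((by fun_prop : Continuous fun z : ℝ × ℝ =>
          F z * z.2 ^ (m - 1)).continuousOn.integrableOn_compact (hS1 j).compact) hmS
      intro z hz
      exact mul_le_mul_of_nonneg_right (h3 z hz) (pow_nonneg (hr z (hS2 j hz)) _)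
    have h5 := (hS1 j).hv
    rw [hFq _ (hS1 j).compact, ← hS'] at h5
    nlinarith
  · -- the limit lies in `r = α + β y`
    have hb' : 0 < |b| := abs_pos.2 hb
    set α := c / b with hα
    set β := -(a / b) with hβ
    obtain ⟨δ, hδ, htol⟩ := tolerance (n := n) hDc hF hfeas (ε := Λ * n / 4) (by positivity)
    obtain ⟨δ', hδ', hmod⟩ := modulus hDc hF (ε := Λ / 4) (by positivity)
    set ε₀ : ℝ := min (δ / (n + 2)) (δ' / 2) with hε₀
    have hε₀0 : 0 < ε₀ := lt_min (by positivity) (by positivity)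
    have hε₀1 : (n + 2) * ε₀ ≤ δ := by
      have h1 : ε₀ ≤ δ / (n + 2) := min_le_left _ _
      calc ((n : ℝ) + 2) * ε₀ ≤ (n + 2) * (δ / (n + 2)) := by gcongr
        _ = δ := by field_simp
    have hε₀2 : ε₀ ≤ δ := by
      have : ε₀ ≤ ((n : ℝ) + 2) * ε₀ := by nlinarith
      linarith
    have hε₀3 : ε₀ < δ' := by
      have h1 : ε₀ ≤ δ' / 2 := min_le_right _ _
      linarith
    obtain ⟨j, hj⟩ := hstrip (|b| * ε₀) (by positivity)
    set S' := S j with hS'
    have hMj := hmass S' (hS1 j).compact (hS1 j).int (hS2 j)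
    have hmS : MeasurableSet S' := (hS1 j).compact.isClosed.measurableSet
    have hline : ∀ z ∈ S', |z.2 - α - β * z.1| ≤ ε₀ := by
      intro z hz
      have h2 := hj z hz
      have e : a * z.1 + b * z.2 - c = b * (z.2 - α - β * z.1) := by
        rw [hα, hβ]; field_simp; ring
      rw [e, abs_mul] at h2
      exact (lt_of_mul_lt_mul_left h2 hb'.le).le
    have hdist : ∀ t r : ℝ, (t, r) ∈ S' → dist ((t, α + β * t) : ℝ × ℝ) (t, r) ≤ ε₀ := by
      intro t r htr
      have h2 := hline _ htr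
      simp only at h2
      rw [Prod.dist_eq, dist_self]
      apply max_le hε₀0.le
      rw [Real.dist_eq, abs_sub_comm]
      have e : r - (α + β * t) = r - α - β * t := by ring
      rw [e]
      exact h2
    have hres := needle hm hn (hS1 j).convex (hS1 j).compact (hS1 j).int
      (fun z hz => hr z (hS2 j hz)) (hS1 j).hw hε₀0.le hline
      (G := fun t => F (t, α + β * t) + Λ / 4) (by fun_prop)
      (by
        intro x hx hsum hpoly
        choose r hxr using hx
        have h1 := htol (fun i => (x i, α + β * x i)) (fun i => (x i, r i))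
          (fun i => hS2 j (hxr i)) (fun i => (hdist _ _ (hxr i)).trans hε₀2)
          (by simp only [hsum, abs_zero]; exact hδ.le)
          (fun i => by
            simp only [Finset.sum_add_distrib, Finset.sum_const, Finset.card_univ,
              Fintype.card_fin, nsmul_eq_mul, ← Finset.mul_sum, hsum, mul_zero, add_zero]
            have := hpoly i
            linarith)
        rw [Finset.sum_add_distrib, Finset.sum_const, Finset.card_univ, Fintype.card_fin,
          nsmul_eq_mul]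
        linarith)
    have h4 : ∫ z in S', (F (z.1, α + β * z.1) + Λ / 4) * z.2 ^ (m - 1) ≤
        (∫ z in S', F z * z.2 ^ (m - 1)) + Λ / 2 * ∫ z in S', z.2 ^ (m - 1) := by
      have i1 : IntegrableOn (fun z : ℝ × ℝ => F z * z.2 ^ (m - 1)) S' :=
        (by fun_prop : Continuous fun z : ℝ × ℝ =>
          F z * z.2 ^ (m - 1)).continuousOn.integrableOn_compact (hS1 j).compact
      have i2 : IntegrableOn (fun z : ℝ × ℝ => z.2 ^ (m - 1)) S' :=
        hqc.continuousOn.integrableOn_compact (hS1 j).compact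
      rw [← integral_const_mul, ← integral_add i1 (i2.const_mul _)]
      apply setIntegral_mono_on ((by fun_prop : Continuous fun z : ℝ × ℝ =>
        (F (z.1, α + β * z.1) + Λ / 4) * z.2 ^ (m - 1)).continuousOn.integrableOn_compact
          (hS1 j).compact) (i1.add (i2.const_mul _)) hmS
      intro z hz
      have h5 : |F z - F (z.1, α + β * z.1)| < Λ / 4 := by
        apply hmod z (hS2 j hz)
        rw [dist_comm]
        exact (hdist z.1 z.2 hz).trans_lt hε₀3
      have h6 := (abs_lt.1 h5).1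
      have h7 : F (z.1, α + β * z.1) + Λ / 4 ≤ F z + Λ / 2 := by linarith
      have h8 := mul_le_mul_of_nonneg_right h7 (pow_nonneg (hr z (hS2 j hz)) (m - 1))
      rw [Pi.add_apply]
      linarith
    have h5 := (hS1 j).hv
    rw [hFq _ (hS1 j).compact, ← hS'] at h5
    nlinarith

end Pool.Agent.Lib.MP_a34d76_pr.Rev
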