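import Mathlib
import Pool.Agent.Lib.MP_a34d76_pr.Rev.Assemble
import Pool.Agent.Lib.MP_a34d76_pr.Rev.Core
import Pool.Agent.Lib.MP_a34d76_pr.Rev.AffineInv

/-! # Bodies of revolution: assembly -/

set_option autoImplicit false

open MeasureTheory Filter Topology Set

namespace Pool.Agent.Lib.MP_a34d76_pr.Rev

theorem planar_holds {m n : ℕ} (hm : 2 ≤ m) (hn : m + 2 ≤ n) : Planar m n := by
  intro D hDc hD hr h0 hcen F hF hfeas
  have hint : (interior D).Nonempty := by
    by_contra hne
    rw [not_nonempty_iff_eq_empty] at hne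
    apply h0
    refine measure_mono_null ?_ (hD.addHaar_frontier volume)
    rw [frontier, hne, sdiff_empty]
    exact subset_closure
  exact plane_core hm hn hD hDc hint hr hcen hF hfeas

/-- Convex bodies of revolution and their affine images. -/
theorem mixable_revolution {d n : ℕ} (hd : 3 ≤ d) (hn : d + 1 ≤ n) {C : Set (Fin d → ℝ)}
    (hC : Convex ℝ C) (h0 : volume C ≠ 0) (h1 : volume C ≠ ⊤) (j : Fin d)
    (L : (Fin d → ℝ) ≃ᵃ[ℝ] (Fin d → ℝ))
    (hrev : ∀ x ∈ C, ∀ y, L y j = L x j → ∑ i, L y i ^ 2 = ∑ i, L x i ^ 2 → y ∈ C) :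
    Mixable n C := by
  obtain ⟨m, rfl⟩ : ∃ m, d = m + 1 := ⟨d - 1, by omega⟩
  have hLc : Continuous L := L.toAffineMap.continuous_of_finiteDimensional
  have hsc : Continuous L.symm := L.symm.toAffineMap.continuous_of_finiteDimensional
  have himg : L '' C = L.symm ⁻¹' C := by
    ext x
    rw [mem_preimage]
    constructor
    · rintro ⟨y, hy, rfl⟩
      rw [L.symm_apply_apply]
      exact hy
    · intro hx
      exact ⟨L.symm x, hx, L.apply_symm_apply x⟩
  refine Mixable.of_image L ?_
  have hconv : Convex ℝ (L '' C) := by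
    have := hC.affine_image (L : (Fin (m + 1) → ℝ) →ᵃ[ℝ] (Fin (m + 1) → ℝ))
    exact this
  have hvol : volume (L '' C) =
      ENNReal.ofReal |LinearMap.det (L.linear : (Fin (m + 1) → ℝ) →ₗ[ℝ] (Fin (m + 1) → ℝ))| *
        volume C := by
    have e : L '' C = (fun y => y + L 0) ''
        ((L.linear : (Fin (m + 1) → ℝ) →ₗ[ℝ] (Fin (m + 1) → ℝ)) '' C) := by
      rw [image_image]
      apply image_congr
      intro x _
      have h3 := L.map_vadd 0 x
      rw [vadd_eq_add, vadd_eq_add, add_zero] at h3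
      exact h3
    rw [e, image_add_right, measure_preimage_add_right, Measure.addHaar_image_linearMap]
  have hdet : LinearMap.det (L.linear : (Fin (m + 1) → ℝ) →ₗ[ℝ] (Fin (m + 1) → ℝ)) ≠ 0 :=
    (LinearEquiv.isUnit_det' L.linear).ne_zero
  refine mixable_axis (by omega : 2 ≤ m) (by omega : 0 < n)
    (planar_holds (by omega) (by omega)) hconv ?_ ?_ j ?_
  · rw [hvol]
    refine mul_ne_zero ?_ h0
    rw [ne_eq, ENNReal.ofReal_eq_zero, not_le]
    positivity
  · rw [hvol]
    exact ENNReal.mul_ne_top ENNReal.ofReal_ne_top h1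
  · intro x hx y h2 h3
    rw [himg, mem_preimage] at hx ⊢
    refine hrev _ hx _ ?_ ?_
    · rw [L.apply_symm_apply, L.apply_symm_apply]; exact h2
    · rw [L.apply_symm_apply, L.apply_symm_apply]; exact h3

end Pool.Agent.Lib.MP_a34d76_pr.Rev
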